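import Pool.Agent.Work.MP_a2fb93_gn.Interface
set_option autoImplicit false

/-!
The final assembly (MP_a2fb93_co, even triangulations of genus g with face-width at least
K (log g + 1)).
-/

namespace ESub

open Finset Classical

/-- the general theorem, with a set N of vertices -/
def Stmt_GNR : Prop :=
  ∃ K : ℕ, 0 < K ∧ K = 2 ^ 18 ∧ ∀ (D : Type) [Finite D] (T : Triangulation D), T.EvenDegrees →
    ∀ (N : Set T.Vertex) (r : ℕ), K ≤ r → T.FaceWidthAtLeast r → T.FlatOff N →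
      (∀ v ∈ N, Nat.card {w : T.Vertex // w ∈ N ∧ T.Near r v w} ≤ 2 ^ (r / K)) →
      T.DualThreeEdgeColourable

theorem FIN_near_mono {D : Type} [Finite D] (T : Triangulation D) {a b : ℕ} (h : a ≤ b)
    {v w : T.Vertex} (hv : T.Near a v w) : T.Near b v w := by
  obtain ⟨l, hl, hw⟩ := (near_iff T a v w).1 hv
  exact (near_iff T b v w).2 ⟨l, hl.trans h, hw⟩

theorem gnr (hCONN : Stmt_CONN) (hLIFT : Stmt_LIFT) (hPOT : Stmt_POT) (hCOL : Stmt_COL)
    (hWNR : Stmt_WNR) (hGAR : Stmt_GAR) (hTBR : Stmt_TBR) (hPKR : Stmt_PKR) : Stmt_GNR := by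
  refine ⟨2 ^ 18, by norm_num, rfl, ?_⟩
  intro D _ T hev N r hr hfw hfl hN
  have := finite_vertex T
  obtain ⟨m, hm⟩ : ∃ m, r / 2 ^ 14 = m + 1 := by
    have : 0 < r / 2 ^ 14 := Nat.div_pos (le_trans (by norm_num) hr) (by norm_num)
    exact ⟨r / 2 ^ 14 - 1, by omega⟩
  obtain ⟨L, hL⟩ : ∃ L, L + 1 = 2048 * (m + 1) := ⟨2048 * (m + 1) - 1, by omega⟩
  have hrm : 2 ^ 14 * (m + 1) ≤ r := by
    rw [← hm]; exact Nat.mul_div_le r _
  have hq : 16 * (r / 2 ^ 18) ≤ r / 2 ^ 14 := by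
    rw [Nat.le_div_iff_mul_le (by norm_num)]
    have := Nat.mul_div_le r (2 ^ 18)
    calc 16 * (r / 2 ^ 18) * 2 ^ 14 = 2 ^ 18 * (r / 2 ^ 18) := by ring
      _ ≤ r := this
  have hq1 : 1 ≤ r / 2 ^ 18 := Nat.div_pos hr (by norm_num)
  have hM : 12 * (2 ^ (r / 2 ^ 18)) ^ 2 ≤ 2 ^ m := by
    calc 12 * (2 ^ (r / 2 ^ 18)) ^ 2 ≤ 2 ^ 4 * (2 ^ (r / 2 ^ 18)) ^ 2 :=
          Nat.mul_le_mul_right _ (by norm_num)
      _ = 2 ^ (4 + 2 * (r / 2 ^ 18)) := by rw [← pow_mul, ← pow_add]; ring_nf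
      _ ≤ 2 ^ m := Nat.pow_le_pow_right (by norm_num) (by omega)
  obtain ⟨n, δ, ord, hδ, hord, hinj, hpick⟩ := hPKR D T N m (2 ^ (r / 2 ^ 18)) L hL hM (by
    intro v hv
    refine le_trans ?_ (hN v hv)
    refine Nat.card_le_card_of_injective
      (fun w : {w : T.Vertex // w ∈ N ∧ T.Near (2 ^ 14 * (m + 1)) v w} =>
        (⟨w.1, w.2.1, FIN_near_mono T hrm w.2.2⟩ : {w : T.Vertex // w ∈ N ∧ T.Near r v w})) ?_
    intro a b hab
    exact Subtype.ext (congrArg (fun z => z.1) hab))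
  obtain ⟨c, γ, hnone, hc, hγ⟩ := hWNR D T N L n δ ord hδ hord hinj
  obtain ⟨g, hg, hg2⟩ := hCONN D T hev
  obtain ⟨g', cl, hg', hcl, hone⟩ := hGAR D T r L hfw (by omega) N hfl c γ hnone
    (fun v u h => ⟨(hγ v u h).1, (hγ v u h).2.1⟩) g hg hg2
  obtain ⟨ρ, hρ, hred, ht4, hρ1⟩ := hLIFT D T g' hg'
  have hClu : Clu T L c γ ρ :=
    { walk := fun v u h => (hγ v u h).1
      len := fun v u h => (hγ v u h).2.1
      mem := fun v u h => (hγ v u h).2.2
      flat := hρ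
      t4 := ht4
      one := fun d h => hρ1 d (hone d h) }
  have h3 : L + 1 + 2 * L = 3 * L + 1 := by ring
  have key := hTBR D T r L (L + 1) (48 * (m + 1)) (by omega) hfw (by omega) (by omega)
    (by omega) c γ ρ hClu (by
      intro v w a b hva hwb hab
      rw [h3] at hab ⊢
      exact hpick c hc a (hc v a hva).1 b (hc w b hwb).1 hab)
  obtain ⟨F, hF⟩ := hPOT D T ρ hρ _ key
  exact hCOL D T ρ cl F hρ (fun d => by rw [hred d]; exact hcl d) hF

/-- the theorem for the genus -/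
def Stmt_GEN : Prop :=
  ∃ K : ℕ, ∀ (D : Type) [Finite D] (T : Triangulation D), T.EvenDegrees → T.Connected →
    ∀ g : ℕ, T.GenusAtMost g → T.FaceWidthAtLeast (K * (Nat.log 2 (g + 1) + 1)) →
      T.DualThreeEdgeColourable

theorem gen (hGNR : Stmt_GNR) (hBFS : Stmt_BFS) (hDBF : Stmt_DBF) (hCTX : Stmt_CTX)
    (hDSC : Stmt_DSC) (hLCN : Stmt_LCN) : Stmt_GEN := by
  obtain ⟨K, -, hK, h⟩ := hGNR
  subst hK
  refine ⟨2 ^ 24, ?_⟩
  intro D _ T hev hcon g hg hfw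
  rcases isEmpty_or_nonempty D with hD | hD
  · exact ⟨fun d => (hD.false d).elim, fun d => (hD.false d).elim, fun d => (hD.false d).elim⟩
  obtain ⟨B⟩ := hBFS D T hcon
  obtain ⟨C⟩ := hDBF D T hcon B
  refine h D T hev C.CG _ ?_ hfw (hDSC D T B C) ?_
  · have : 1 ≤ Nat.log 2 (g + 1) + 1 := by omega
    calc 2 ^ 18 ≤ 2 ^ 24 * 1 := by norm_num
      _ ≤ _ := Nat.mul_le_mul_left _ this
  · intro v _
    set s := Nat.log 2 (g + 1) + 1 with hs
    have hgs : g ≤ 2 ^ s := by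
      have := Nat.lt_pow_succ_log_self (b := 2) (by norm_num) (g + 1)
      rw [Nat.succ_eq_add_one, ← hs] at this
      omega
    have hs1 : 1 ≤ s := by omega
    have hss : s ≤ 2 ^ s := Nat.lt_two_pow_self.le
    have hdiv : 2 ^ 24 * s / 2 ^ 18 = 64 * s := by
      rw [show 2 ^ 24 * s = 2 ^ 18 * (64 * s) by ring]
      exact Nat.mul_div_cancel_left _ (by norm_num)
    rw [hdiv]
    calc Nat.card {w : T.Vertex // w ∈ C.CG ∧ T.Near (2 ^ 24 * s) v w}
        ≤ Nat.card C.X * (2 * (2 ^ 24 * s) + 1) := hLCN D T B C _ v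
      _ ≤ (4 * g) * (2 ^ 26 * s) := by
          refine Nat.mul_le_mul (hCTX D T B C g hg) ?_
          omega
      _ ≤ (4 * 2 ^ s) * (2 ^ 26 * 2 ^ s) :=
          Nat.mul_le_mul (Nat.mul_le_mul_left _ hgs) (Nat.mul_le_mul_left _ hss)
      _ = 2 ^ (28 + 2 * s) := by rw [pow_add, two_mul, pow_add]; ring
      _ ≤ 2 ^ (64 * s) := Nat.pow_le_pow_right (by norm_num) (by omega)

/-- the theorem with a set of vertices whose complement contains no noncontractible closed walk -/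
def Stmt_SET : Prop :=
  ∃ K : ℕ, 0 < K ∧ ∀ (D : Type) [Finite D] (T : Triangulation D), T.EvenDegrees →
    ∀ (N : Set T.Vertex) (r : ℕ), K ≤ r → T.FaceWidthAtLeast r → T.ContractibleOff N →
      (∀ v ∈ N, Nat.card {w : T.Vertex // w ∈ N ∧ T.Near r v w} ≤ 2 ^ (r / K)) →
      T.DualThreeEdgeColourable

theorem set_of_gnr (hGNR : Stmt_GNR) (hGPH : Stmt_GPH) : Stmt_SET := by
  obtain ⟨K, hK, -, h⟩ := hGNR
  exact ⟨K, hK, fun D _ T hev N r hr hfw hN hc =>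
    h D T hev N r hr hfw (hGPH D T N hN) hc⟩

end ESub
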