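import Pool.Agent.Work.MP_a2fb93_gn.Interface
set_option autoImplicit false

/-!
Block BFS: a breadth first tree
-/

namespace ESub

open Finset Classical

theorem p_BFS : Stmt_BFS := by
  intro D _ _ T hc
  obtain ⟨d0⟩ := (inferInstance : Nonempty D)
  set v0 : T.Vertex := T.org d0 with hv0
  have hex : ∀ v : T.Vertex, ∃ n, T.Near n v v0 := fun v => hc v v0
  let dep : T.Vertex → ℕ := fun v => Nat.find (hex v)
  have hdep : ∀ v, T.Near (dep v) v v0 := fun v => Nat.find_spec (hex v)
  have hmin : ∀ v n, T.Near n v v0 → dep v ≤ n := fun v n h => Nat.find_min' (hex v) h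
  have hroot : ∀ v, dep v = 0 ↔ v = v0 := by
    intro v
    constructor
    · intro h
      have h1 := hdep v
      rw [h] at h1
      exact h1
    · intro h
      exact Nat.le_zero.1 (hmin v 0 h)
  have hup : ∀ d, dep (T.org d) ≤ dep (T.tgt d) + 1 := fun d =>
    hmin _ _ (Or.inr ⟨d, rfl, hdep _⟩)
  have hπ : ∀ v : T.Vertex, ∃ d : D, v ≠ v0 → T.org d = v ∧ dep (T.tgt d) + 1 = dep v := by
    intro v
    by_cases hv : v = v0
    · exact ⟨d0, fun h => absurd hv h⟩
    · have h0 : dep v ≠ 0 := fun h => hv ((hroot v).1 h)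
      obtain ⟨n, hn⟩ := Nat.exists_eq_succ_of_ne_zero h0
      have h1 := hdep v
      rw [hn] at h1
      rcases h1 with h1 | ⟨d, hd, h1⟩
      · have := hmin v n h1
        omega
      · refine ⟨d, fun _ => ⟨hd, ?_⟩⟩
        have h2 := hmin _ n h1
        have h3 := hup d
        rw [hd] at h3
        omega
  choose π hπ using hπ
  exact ⟨{ v0 := v0
           dep := dep
           π := π
           root := hroot
           org_π := fun v hv => (hπ v hv).1
           dep_π := fun v hv => (hπ v hv).2
           lip := fun d => by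
             refine hmin _ _ (Or.inr ⟨T.inv d, rfl, ?_⟩)
             rw [tgt_inv]
             exact hdep _ }⟩

end ESub
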