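import Pool.Agent.Work.MP_a2fb93_gn.Interface
set_option autoImplicit false

/-!
Block CTX: counting the darts of the tree, of the cotree, and the others.
-/

namespace ESub

open Finset Classical

/-- the darts of a rooted spanning tree, given by a parent dart for every object except the root -/
theorem CTX_count {D S : Type} [Finite D] [Finite S] (inv : D → D)
    (hii : ∀ d, inv (inv d) = d) (s0 : S)
    (κ : S → D) (fc : D → S) (dp : S → ℕ) (h1 : ∀ s, s ≠ s0 → fc (κ s) = s)
    (h2 : ∀ s, s ≠ s0 → dp (fc (inv (κ s))) < dp s) :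
    ({d | ∃ s, s ≠ s0 ∧ (d = κ s ∨ d = inv (κ s))} : Set D).ncard + 2 = 2 * Nat.card S := by
  set F : {s : S // s ≠ s0} × Bool → D := fun p => if p.2 = true then κ p.1 else inv (κ p.1) with hF
  have hFt : ∀ s : {s : S // s ≠ s0}, F (s, true) = κ s := fun s => if_pos rfl
  have hFf : ∀ s : {s : S // s ≠ s0}, F (s, false) = inv (κ s) := fun s =>
    if_neg Bool.false_ne_true
  have hκ : ∀ s t : {s : S // s ≠ s0}, κ s = κ t → s = t := by
    intro s t h
    apply Subtype.ext
    rw [← h1 s s.2, ← h1 t t.2, h]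
  have hmix : ∀ s t : {s : S // s ≠ s0}, κ s ≠ inv (κ t) := by
    intro s t h
    have h3 := h2 t t.2
    have h4 := h2 s s.2
    rw [← h, h1 s s.2] at h3
    have h5 : inv (κ s) = κ t := by rw [h, hii]
    rw [h5, h1 t t.2] at h4
    omega
  have hinj : Function.Injective F := by
    rintro ⟨s, b⟩ ⟨t, c⟩ h
    cases b <;> cases c
    · rw [hFf, hFf] at h
      have h3 := congrArg inv h
      rw [hii, hii] at h3
      rw [hκ s t h3]
    · rw [hFf, hFt] at h
      exact (hmix t s h.symm).elim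
    · rw [hFt, hFf] at h
      exact (hmix s t h).elim
    · rw [hFt, hFt] at h
      rw [hκ s t h]
  have hrange : ({d | ∃ s, s ≠ s0 ∧ (d = κ s ∨ d = inv (κ s))} : Set D) = Set.range F := by
    ext d
    constructor
    · rintro ⟨s, hs, h | h⟩
      · exact ⟨(⟨s, hs⟩, true), by rw [hFt, h]⟩
      · exact ⟨(⟨s, hs⟩, false), by rw [hFf, h]⟩
    · rintro ⟨⟨s, b⟩, rfl⟩
      cases b
      · exact ⟨s, s.2, Or.inr (hFf s)⟩
      · exact ⟨s, s.2, Or.inl (hFt s)⟩
  rw [hrange, ← Nat.card_coe_set_eq, Nat.card_range_of_injective hinj, Nat.card_prod,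
    Nat.card_eq_fintype_card (α := Bool), Fintype.card_bool]
  have h6 : Nat.card {s : S // s ≠ s0} = ({s0}ᶜ : Set S).ncard := by
    rw [← Nat.card_coe_set_eq]
    rfl
  have h7 := Set.ncard_add_ncard_compl ({s0} : Set S)
  rw [Set.ncard_singleton] at h7
  rw [h6]
  omega

theorem p_CTX (hFAC : Stmt_FAC) : Stmt_CTX := by
  intro D _ T B C g hg
  obtain ⟨hFin, -, -, -, hcard⟩ := hFAC D T
  have hV : Finite T.Vertex := finite_vertex T
  have hT := CTX_count T.inv T.inv_inv B.v0 B.π T.org B.dep B.org_π (fun v hv => by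
    have h := B.dep_π v hv
    have h2 : T.org (T.inv (B.π v)) = T.tgt (B.π v) := rfl
    rw [h2]
    omega)
  have hC := CTX_count T.inv T.inv_inv C.f0 C.κ T.fc C.dp C.fc_κ C.dp_κ
  set TS : Set D := {d | ∃ v, v ≠ B.v0 ∧ (d = B.π v ∨ d = T.inv (B.π v))} with hTS
  set CS : Set D := {d | ∃ f, f ≠ C.f0 ∧ (d = C.κ f ∨ d = T.inv (C.κ f))} with hCS
  have hdisj : Disjoint TS CS := by
    rw [Set.disjoint_left]
    rintro d ⟨v, hv, hd⟩ ⟨f, hf, hd'⟩
    apply C.tree_κ f hf
    rcases hd' with h | h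
    · exact ⟨v, hv, by rw [← h]; exact hd⟩
    · have h2 : C.κ f = T.inv d := by rw [h, T.inv_inv]
      refine ⟨v, hv, ?_⟩
      rcases hd with h3 | h3
      · right
        rw [h2, h3]
      · left
        rw [h2, h3, T.inv_inv]
  have hX : C.X = (TS ∪ CS)ᶜ := by
    ext d
    constructor
    · rintro ⟨h1, h2⟩ (h3 | h3)
      · exact h1 h3
      · exact h2 h3
    · intro h
      exact ⟨fun h1 => h (Or.inl h1), fun h1 => h (Or.inr h1)⟩
  have h1 := Set.ncard_add_ncard_compl (TS ∪ CS)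
  rw [← hX, Set.ncard_union_eq hdisj] at h1
  have h3 : Nat.card C.X = C.X.ncard := Nat.card_coe_set_eq _
  have h4 : Nat.card D + 12 ≤ 6 * Nat.card T.Vertex + 12 * g := hg
  omega

end ESub
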