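import Pool.Agent.Work.MP_a2fb93_gn.Interface
set_option autoImplicit false

/-!
Block DBF: a cotree (helper78)
-/

namespace ESub

open Finset Classical

/-- the faces which are reached in at most n steps -/
def DBF_S {D : Type} {T : Triangulation D} (B : Bfs T) (f0 : T.Face) : ℕ → Set T.Face
  | 0 => {f0}
  | n + 1 => DBF_S B f0 n ∪ {f | ∃ d, T.fc d = f ∧ ¬ B.Tree d ∧ T.fc (T.inv d) ∈ DBF_S B f0 n}

theorem DBF_tree {D : Type} {T : Triangulation D} (B : Bfs T) (d : D) :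
    B.Tree (T.inv d) ↔ B.Tree d := by
  constructor
  · rintro ⟨v, hv, h | h⟩
    · exact ⟨v, hv, Or.inr (by rw [← h, T.inv_inv])⟩
    · refine ⟨v, hv, Or.inl ?_⟩
      have := congrArg T.inv h
      rwa [T.inv_inv, T.inv_inv] at this
  · rintro ⟨v, hv, h | h⟩
    · exact ⟨v, hv, Or.inr (by rw [h])⟩
    · exact ⟨v, hv, Or.inl (by rw [h, T.inv_inv])⟩

theorem p_DBF (hF : Stmt_FAC) (hD : Stmt_DCN) : Stmt_DBF := by
  intro D _ _ T hc B
  obtain ⟨_, f2, f3, _, _⟩ := hF D T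
  obtain ⟨d0⟩ := (inferInstance : Nonempty D)
  set f0 : T.Face := T.fc d0 with hf0
  have hall : ∀ d e, (∃ n, T.fc d ∈ DBF_S B f0 n) ↔ (∃ n, T.fc e ∈ DBF_S B f0 n) := by
    refine hD D T hc B (fun d => ∃ n, T.fc d ∈ DBF_S B f0 n) ?_ ?_
    · intro d
      show (∃ n, T.fc (T.next d) ∈ DBF_S B f0 n) ↔ ∃ n, T.fc d ∈ DBF_S B f0 n
      rw [f3 d]
    · intro d hd
      constructor
      · rintro ⟨n, hn⟩
        exact ⟨n + 1, Or.inr ⟨d, rfl, hd, hn⟩⟩
      · rintro ⟨n, hn⟩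
        refine ⟨n + 1, Or.inr ⟨T.inv d, rfl, ?_, ?_⟩⟩
        · rw [DBF_tree]
          exact hd
        · rw [T.inv_inv]
          exact hn
  have hex : ∀ f : T.Face, ∃ n, f ∈ DBF_S B f0 n := by
    intro f
    obtain ⟨d, rfl⟩ := f2 f
    exact (hall d0 d).1 ⟨0, rfl⟩
  let dp : T.Face → ℕ := fun f => Nat.find (hex f)
  have hdp : ∀ f, f ∈ DBF_S B f0 (dp f) := fun f => Nat.find_spec (hex f)
  have hmin : ∀ f n, f ∈ DBF_S B f0 n → dp f ≤ n := fun f n h => Nat.find_min' (hex f) h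
  have hκ : ∀ f : T.Face, ∃ d : D, f ≠ f0 →
      T.fc d = f ∧ ¬ B.Tree d ∧ dp (T.fc (T.inv d)) < dp f := by
    intro f
    by_cases hf : f = f0
    · exact ⟨d0, fun h => absurd hf h⟩
    · have h0 : dp f ≠ 0 := by
        intro h
        have h1 := hdp f
        rw [h] at h1
        exact hf h1
      obtain ⟨n, hn⟩ := Nat.exists_eq_succ_of_ne_zero h0
      have h1 := hdp f
      rw [hn] at h1
      rcases h1 with h1 | ⟨d, hd, ht, h1⟩
      · have := hmin f n h1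
        omega
      · refine ⟨d, fun _ => ⟨hd, ht, ?_⟩⟩
        have h2 := hmin _ n h1
        omega
  choose κ hκ using hκ
  exact ⟨{ f0 := f0
           dp := dp
           κ := κ
           fc_κ := fun f hf => (hκ f hf).1
           tree_κ := fun f hf => (hκ f hf).2.1
           dp_κ := fun f hf => (hκ f hf).2.2 }⟩

end ESub
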