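import Pool.Agent.Work.MP_a2fb93_gn.Interface
set_option autoImplicit false

/-! Block DCN: the complement of a tree is connected. -/

namespace ESub

open Finset Classical

theorem DCN_rot {D : Type} (T : Triangulation D) (x : D) : T.next (T.inv (T.rot x)) = x := by
  unfold Triangulation.rot
  rw [T.inv_inv, T.next_next_next]

theorem DCN_claim {D : Type} [Finite D] (T : Triangulation D) (B : Bfs T) (a : D → Prop)
    (hn : ∀ d, a (T.next d) ↔ a d) (hi : ∀ d, ¬ B.Tree d → (a (T.inv d) ↔ a d)) (M : ℕ)
    (hM : ∀ v, B.dep v ≤ M) : ∀ n : ℕ, ∀ v, v ≠ B.v0 → M - B.dep v = n →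
      (a (T.inv (B.π v)) ↔ a (B.π v)) := by
  intro n
  induction n using Nat.strong_induction_on with
  | _ n ih =>
    intro v hv hvn
    have h1 : ∀ e, T.org e = v → e ≠ B.π v → (a (T.inv e) ↔ a e) := by
      intro e he hne
      by_cases ht : B.Tree e
      · obtain ⟨w, hw, h | h⟩ := ht
        · exfalso
          rw [h, B.org_π w hw] at he
          rw [he] at h
          exact hne h
        · have h2 : T.tgt (B.π w) = v := by
            rw [← he, h]
            rfl
          have h3 := B.dep_π w hw
          rw [h2] at h3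
          have h4 := hM w
          have h5 := ih (M - B.dep w) (by omega) w hw rfl
          rw [h, T.inv_inv]
          exact h5.symm
      · exact hi e ht
    have h2 : ∀ x, T.org x = v → T.rot x ≠ B.π v → (a (T.rot x) ↔ a x) := by
      intro x hx hne
      have h3 := h1 (T.rot x) (by rw [org_rot]; exact hx) hne
      rw [← h3, ← hn (T.inv (T.rot x)), DCN_rot]
    have hex : ∃ k, 0 < k ∧ T.rot^[k] (B.π v) = B.π v := by
      obtain ⟨k, hk, hkd⟩ := T.VTX_rot_inj.mem_periodicPts (B.π v)
      exact ⟨k, hk, hkd⟩
    have hk := Nat.find_spec hex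
    have hmin := fun m hm => Nat.find_min hex (m := m) hm
    set k := Nat.find hex with hkdef
    have horg : ∀ i : ℕ, T.org (T.rot^[i] (B.π v)) = v := by
      intro i
      induction i with
      | zero => exact B.org_π v hv
      | succ i ihi =>
        rw [Function.iterate_succ_apply', org_rot]
        exact ihi
    have h3 : ∀ i : ℕ, i < k → (a (T.rot^[i] (B.π v)) ↔ a (B.π v)) := by
      intro i
      induction i with
      | zero => intro _; exact Iff.rfl
      | succ i ihi =>
        intro hik
        rw [← ihi (by omega), Function.iterate_succ_apply']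
        refine h2 _ (horg i) ?_
        intro hc
        exact hmin (i + 1) hik ⟨Nat.succ_pos _, by rw [Function.iterate_succ_apply']; exact hc⟩
    have h4 := h3 (k - 1) (by omega)
    have h5 : T.rot (T.rot^[k - 1] (B.π v)) = B.π v := by
      rw [← Function.iterate_succ_apply' T.rot (k - 1)]
      have h6 : (k - 1).succ = k := by omega
      rw [h6]
      exact hk.2
    have h6 := DCN_rot T (T.rot^[k - 1] (B.π v))
    rw [h5] at h6
    rw [← h4, ← h6, hn]

theorem p_DCN : Stmt_DCN := by
  intro D _ T hconn B a hn hi
  haveI := finite_vertex T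
  obtain ⟨M, hM⟩ := (Set.finite_range B.dep).bddAbove
  have hM' : ∀ v, B.dep v ≤ M := fun v => hM ⟨v, rfl⟩
  have h1 : ∀ v, v ≠ B.v0 → (a (T.inv (B.π v)) ↔ a (B.π v)) := fun v hv =>
    DCN_claim T B a hn hi M hM' _ v hv rfl
  have h2 : ∀ d, a (T.inv d) ↔ a d := by
    intro d
    by_cases ht : B.Tree d
    · obtain ⟨v, hv, h | h⟩ := ht
      · rw [h]
        exact h1 v hv
      · rw [h, T.inv_inv]
        exact (h1 v hv).symm
    · exact hi d ht
  have h3 : ∀ d, a (T.rot d) ↔ a d := by
    intro d
    unfold Triangulation.rot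
    rw [h2, hn, hn]
  have h4 : ∀ (n : ℕ) (d : D), a (T.rot^[n] d) ↔ a d := by
    intro n
    induction n with
    | zero => intro d; exact Iff.rfl
    | succ n ih =>
      intro d
      rw [Function.iterate_succ_apply', h3]
      exact ih d
  have h5 : ∀ d e, T.org d = T.org e → (a d ↔ a e) := by
    intro d e h
    obtain ⟨n, hn⟩ := (org_eq_iff T d e).1 h
    rw [← hn]
    exact (h4 n d).symm
  have h6 : ∀ (l : List D) (v w : T.Vertex), T.IsWalk l v w → ∀ d e, T.org d = v → T.org e = w →
      (a d ↔ a e) := by
    intro l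
    induction l with
    | nil =>
      intro v w h d e hd he
      have hvw : v = w := h
      exact h5 d e (by rw [hd, he, hvw])
    | cons x l ih =>
      intro v w h d e hd he
      have h7 : a d ↔ a x := h5 d x (by rw [hd]; exact h.1.symm)
      have h8 := ih _ _ h.2 (T.inv x) e (org_inv T x) he
      rw [h7, ← h2 x]
      exact h8
  intro d e
  obtain ⟨n, hn⟩ := hconn (T.org d) (T.org e)
  obtain ⟨l, _, hl⟩ := (near_iff T n _ _).1 hn
  exact h6 l _ _ hl d e rfl rfl

end ESub
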