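import Pool.Agent.Work.MP_a2fb93_gn.Interface
set_option autoImplicit false
set_option linter.unusedSectionVars false

/-! Block DSC of MP_a2fb93_gn: no holonomy off the cut graph. -/

namespace ESub

open Finset Classical

namespace DSCaux

variable {D : Type} [Finite D] (T : Triangulation D)

theorem rot_injective : Function.Injective T.rot := by
  intro d e h
  have h1 : T.next (T.inv (T.rot d)) = T.next (T.inv (T.rot e)) := by rw [h]
  unfold Triangulation.rot at h1
  rwa [T.inv_inv, T.inv_inv, T.next_next_next, T.next_next_next] at h1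

theorem next_inv_rot (d : D) : T.next (T.inv (T.rot d)) = d := by
  unfold Triangulation.rot
  rw [T.inv_inv, T.next_next_next]

theorem org_rot_iter (d : D) (n : ℕ) : T.org (T.rot^[n] d) = T.org d := by
  induction n with
  | zero => rfl
  | succ n ih => rw [Function.iterate_succ_apply', org_rot T, ih]

/-- the rotation around a vertex: if `τ` does not change from `e` to `rot e` unless `rot e = e0`, then it
does not change there either -/
theorem around {G : Type} (τ : D → G) (e0 : D)
    (h : ∀ e, T.org e = T.org e0 → T.rot e ≠ e0 → τ e = τ (T.rot e)) :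
    τ (T.next (T.inv e0)) = τ e0 := by
  have hmem : e0 ∈ Function.periodicPts T.rot := (rot_injective T).mem_periodicPts e0
  have hk0 := Function.minimalPeriod_pos_of_mem_periodicPts hmem
  have hk1 : T.rot^[Function.minimalPeriod T.rot e0] e0 = e0 := Function.iterate_minimalPeriod
  have hne : ∀ i, i ≠ 0 → i < Function.minimalPeriod T.rot e0 → T.rot^[i] e0 ≠ e0 :=
    fun i hi hlt => Function.not_isPeriodicPt_of_pos_of_lt_minimalPeriod hi hlt
  generalize Function.minimalPeriod T.rot e0 = k at hk0 hk1 hne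
  have key : ∀ i, i < k → τ (T.rot^[i] e0) = τ e0 := by
    intro i
    induction i with
    | zero => intro _; rfl
    | succ i ih =>
      intro hi
      have h1 := h (T.rot^[i] e0) (org_rot_iter T e0 i) (by
        rw [← Function.iterate_succ_apply' T.rot i e0]
        exact hne (i + 1) (Nat.succ_ne_zero i) hi)
      rw [Function.iterate_succ_apply', ← h1]
      exact ih (by omega)
  obtain ⟨m, rfl⟩ : ∃ m, k = m + 1 := ⟨k - 1, by omega⟩
  have h2 : T.next (T.inv e0) = T.rot^[m] e0 := by
    conv_lhs => rw [← hk1, Function.iterate_succ_apply']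
    exact next_inv_rot T _
  rw [h2]
  exact key m (by omega)

/-- a frame on every face -/
theorem exists_theta (hF : Stmt_FAC) {G : Type} [Group G] (h : D → G) (hh : IsFlat T h) :
    ∃ θ : D → G, ∀ d, θ (T.next d) = θ d * h d := by
  obtain ⟨-, hsurj, hnext, hiff, -⟩ := hF D T
  choose b hb using hsurj
  have hcase : ∀ d, d = b (T.fc d) ∨ d = T.next (b (T.fc d)) ∨
      d = T.next (T.next (b (T.fc d))) := fun d =>
    (hiff (b (T.fc d)) d).1 (hb (T.fc d))
  have hn2 : ∀ d, T.next (T.next d) ≠ d := by
    intro d hd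
    have h1 := congrArg T.next hd
    rw [T.next_next_next] at h1
    exact T.next_ne d h1.symm
  refine ⟨fun d => if d = b (T.fc d) then 1 else if d = T.next (b (T.fc d)) then h (b (T.fc d))
    else h (b (T.fc d)) * h (T.next (b (T.fc d))), ?_⟩
  intro d
  have hfn : T.fc (T.next d) = T.fc d := hnext d
  simp only [hfn]
  rcases hcase d with h1 | h1 | h1
  · have e1 : T.next d ≠ b (T.fc d) := by
      rw [← h1]; exact T.next_ne d
    have e2 : T.next d = T.next (b (T.fc d)) := by rw [← h1]
    rw [if_neg e1, if_pos e2, if_pos h1, one_mul, ← h1]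
  · have e0 : d ≠ b (T.fc d) := by
      intro h2
      rw [← h2] at h1
      exact T.next_ne d h1.symm
    have e1 : T.next d ≠ b (T.fc d) := by
      intro h2
      rw [← h2] at h1
      exact hn2 d h1.symm
    have e2 : T.next d ≠ T.next (b (T.fc d)) := by
      intro h2
      rw [← h1] at h2
      exact T.next_ne d h2
    rw [if_neg e1, if_neg e2, if_neg e0, if_pos h1, ← h1]
  · have e0 : d ≠ b (T.fc d) := by
      intro h2
      rw [← h2] at h1
      exact hn2 d h1.symm
    have e0' : d ≠ T.next (b (T.fc d)) := by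
      intro h2
      rw [← h2] at h1
      exact T.next_ne d h1.symm
    have e1 : T.next d = b (T.fc d) := by
      conv_lhs => rw [h1]
      exact T.next_next_next _
    rw [if_pos e1, if_neg e0, if_neg e0']
    have h3 := hh.face (b (T.fc d))
    rw [← h1] at h3
    exact h3.symm

end DSCaux

open DSCaux in
theorem p_DSC (hF : Stmt_FAC) (hR : Stmt_FOR) : Stmt_DSC := by
  intro D _ T B C G _ h hh
  obtain ⟨θ, hθ⟩ := exists_theta T hF h hh
  obtain ⟨-, hsurj, hnext, hiff, -⟩ := hF D T
  obtain ⟨ψ, hψ⟩ := hR T.Face G C.dp (fun f => T.fc (T.inv (C.κ f)))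
    (fun f => θ (T.inv (C.κ f)) * (h (C.κ f))⁻¹ * (θ (C.κ f))⁻¹) C.f0 (fun f hf => C.dp_κ f hf)
  set τ : D → G := fun d => ψ (T.fc d) * θ d with hτ
  have τnext : ∀ d, τ (T.next d) = τ d * h d := by
    intro d
    simp only [hτ, hnext d, hθ d, mul_assoc]
  have Jinv : ∀ d, τ (T.inv d) = τ d * h d → τ (T.inv (T.inv d)) = τ (T.inv d) * h (T.inv d) := by
    intro d hd
    rw [T.inv_inv, hh.inv, hd]
    group
  have Jrot : ∀ d, τ (T.inv d) = τ d * h d ↔ τ (T.next (T.inv d)) = τ d := by
    intro d
    rw [τnext, hh.inv]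
    constructor
    · intro hd; rw [hd]; group
    · intro hd
      rw [← hd]; group
  have Jκ : ∀ f, f ≠ C.f0 → τ (T.inv (C.κ f)) = τ (C.κ f) * h (C.κ f) := by
    intro f hf
    simp only [hτ]
    rw [C.fc_κ f hf, hψ f hf]
    group
  -- darts with origin off the cut graph
  have gen : ∀ v, v ∉ C.CG → (∀ w, w ≠ B.v0 → w ∉ C.CG → B.dep w = B.dep v + 1 →
      τ (T.inv (B.π w)) = τ (B.π w) * h (B.π w)) →
      ∀ e, T.org e = v → (v ≠ B.v0 → e ≠ B.π v) → τ (T.inv e) = τ e * h e := by
    intro v hv hw e he hne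
    by_cases h1 : B.Tree e
    · obtain ⟨w, hw0, h2 | h2⟩ := h1
      · exfalso
        have h3 : w = v := by rw [← B.org_π w hw0, ← h2, he]
        subst h3
        exact hne hw0 h2
      · have h3 : T.tgt (B.π w) = v := by
          rw [← he, h2]; rfl
        have h4 : B.dep w = B.dep v + 1 := by
          rw [← B.dep_π w hw0, h3]
        have h5 : w ∉ C.CG := by
          rintro ⟨d, hd, n, hn⟩
          refine hv ⟨d, hd, n + 1, ?_⟩
          rw [Function.iterate_succ_apply', hn]
          unfold Bfs.par
          rw [if_neg hw0, h3]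
        rw [h2]
        exact Jinv _ (hw w hw0 h5 h4)
    · by_cases h2 : C.Ctr e
      · obtain ⟨f, hf, h3 | h3⟩ := h2
        · rw [h3]; exact Jκ f hf
        · rw [h3]; exact Jinv _ (Jκ f hf)
      · exfalso
        exact hv ⟨e, ⟨h1, h2⟩, 0, he⟩
  have hfin : Finite T.Vertex := finite_vertex T
  obtain ⟨M, hM⟩ : ∃ M, ∀ v : T.Vertex, B.dep v ≤ M := by
    obtain ⟨M, hM⟩ := (Set.finite_range B.dep).bddAbove
    exact ⟨M, fun v => hM ⟨v, rfl⟩⟩
  have claim : ∀ k, ∀ v, v ≠ B.v0 → v ∉ C.CG → M ≤ B.dep v + k →
      τ (T.inv (B.π v)) = τ (B.π v) * h (B.π v) := by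
    intro k
    induction k with
    | zero =>
      intro v hv0 hv hk
      rw [Jrot]
      apply around T τ (B.π v)
      intro e he hne
      have h1 := gen v hv (fun w hw0 hw hd => by
        have := hM w
        omega) (T.rot e) (by rw [org_rot T, he, B.org_π v hv0]) (fun _ => hne)
      rw [Jrot, next_inv_rot] at h1
      exact h1
    | succ k ih =>
      intro v hv0 hv hk
      rw [Jrot]
      apply around T τ (B.π v)
      intro e he hne
      have h1 := gen v hv (fun w hw0 hw hd => ih w hw0 hw (by omega)) (T.rot e)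
        (by rw [org_rot T, he, B.org_π v hv0]) (fun _ => hne)
      rw [Jrot, next_inv_rot] at h1
      exact h1
  have all : ∀ e, T.org e ∉ C.CG → τ (T.inv e) = τ e * h e := by
    intro e he
    by_cases h1 : T.org e ≠ B.v0 ∧ e = B.π (T.org e)
    · rw [h1.2]
      exact claim M _ h1.1 he (by omega)
    · refine gen (T.org e) he (fun w hw0 hw _ => claim M w hw0 hw (by omega)) e rfl ?_
      intro h2 h3
      exact h1 ⟨h2, h3⟩
  have rotinv : ∀ e, T.org e ∉ C.CG → τ (T.rot e) = τ e := by
    intro e he
    have h1 := all (T.rot e) (by rw [org_rot T]; exact he)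
    rw [Jrot, next_inv_rot] at h1
    exact h1.symm
  have rotn : ∀ (n : ℕ) (e : D), T.org e ∉ C.CG → τ (T.rot^[n] e) = τ e := by
    intro n e he
    induction n with
    | zero => rfl
    | succ n ih =>
      rw [Function.iterate_succ_apply', rotinv _ (by rw [org_rot_iter]; exact he), ih]
  have const : ∀ d e, T.org d = T.org e → T.org d ∉ C.CG → τ e = τ d := by
    intro d e hde hd
    obtain ⟨n, hn⟩ := (org_eq_iff T d e).1 hde
    rw [← hn]
    exact rotn n d hd
  choose r hr using exists_org T
  refine ⟨fun v => τ (r v), fun d h1 h2 => ?_⟩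
  have e1 : τ (r (T.org d)) = τ d := (const d _ (hr _).symm h1)
  have e2 : τ (r (T.tgt d)) = τ (T.next d) :=
    const (T.next d) _ (by rw [org_next T, hr]) (by rw [org_next T]; exact h2)
  show h d = (τ (r (T.org d)))⁻¹ * τ (r (T.tgt d))
  rw [e1, e2, τnext]
  group

end ESub
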