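import Pool.Agent.Work.MP_a2fb93_gn.Interface
set_option autoImplicit false

/-! Block FAC: faces. -/

namespace ESub

open Finset Classical

theorem FAC_next {D : Type} (T : Triangulation D) (d : D) : T.fc (T.next d) = T.fc d :=
  (Quot.sound (r := fun d e : D => e = T.next d) rfl).symm

theorem FAC_iff {D : Type} (T : Triangulation D) (d e : D) :
    T.fc d = T.fc e ↔ e = d ∨ e = T.next d ∨ e = T.next (T.next d) := by
  constructor
  · intro h
    have h1 := Quot.eqvGen_exact (r := fun d e : D => e = T.next d) h
    clear h
    induction h1 with
    | rel x y h => exact Or.inr (Or.inl h)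
    | refl x => exact Or.inl rfl
    | symm x y _ ih =>
      rcases ih with h | h | h
      · exact Or.inl h.symm
      · refine Or.inr (Or.inr ?_)
        rw [h, T.next_next_next]
      · refine Or.inr (Or.inl ?_)
        rw [h, T.next_next_next]
    | trans x y z _ _ ih1 ih2 =>
      rcases ih1 with h1 | h1 | h1 <;> rcases ih2 with h2 | h2 | h2 <;> rw [h1] at h2
      · exact Or.inl h2
      · exact Or.inr (Or.inl h2)
      · exact Or.inr (Or.inr h2)
      · exact Or.inr (Or.inl h2)
      · exact Or.inr (Or.inr h2)
      · rw [T.next_next_next] at h2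
        exact Or.inl h2
      · exact Or.inr (Or.inr h2)
      · rw [T.next_next_next] at h2
        exact Or.inl h2
      · rw [T.next_next_next] at h2
        exact Or.inr (Or.inl h2)
  · rintro (h | h | h)
    · rw [h]
    · rw [h, FAC_next]
    · rw [h, FAC_next, FAC_next]

theorem FAC_ne2 {D : Type} (T : Triangulation D) (d : D) : T.next (T.next d) ≠ d := by
  intro h
  have h1 := congrArg T.next h
  rw [T.next_next_next] at h1
  exact T.next_ne d h1.symm

theorem FAC_card {D : Type} [Finite D] (T : Triangulation D) :
    Nat.card D = 3 * Nat.card T.Face := by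
  have hsur : ∀ f : T.Face, ∃ d, T.fc d = f := fun f => Quot.exists_rep f
  choose rep hrep using hsur
  have hfc : ∀ (i : Fin 3) (d : D), T.fc (T.next^[(i : ℕ)] d) = T.fc d := by
    intro i d
    fin_cases i
    · rfl
    · exact FAC_next T d
    · show T.fc (T.next (T.next d)) = T.fc d
      rw [FAC_next, FAC_next]
  have hbij : Function.Bijective (fun p : Fin 3 × T.Face => T.next^[(p.1 : ℕ)] (rep p.2)) := by
    constructor
    · rintro ⟨i, f⟩ ⟨j, f'⟩ h
      have h1 : f = f' := by
        have h2 := congrArg T.fc h
        simp only [hfc, hrep] at h2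
        exact h2
      subst h1
      have h2 : i = j := by
        fin_cases i <;> fin_cases j <;>
          first
          | rfl
          | (exfalso
             simp only [Function.iterate_succ, Function.iterate_zero, Function.comp_apply,
               id_eq] at h
             first
             | exact T.next_ne _ h
             | exact T.next_ne _ h.symm
             | exact FAC_ne2 T _ h
             | exact FAC_ne2 T _ h.symm)
      rw [h2]
    · intro d
      have h1 : T.fc (rep (T.fc d)) = T.fc d := hrep _
      rcases (FAC_iff T _ _).1 h1 with h | h | h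
      · exact ⟨(0, T.fc d), h.symm⟩
      · exact ⟨(1, T.fc d), h.symm⟩
      · exact ⟨(2, T.fc d), h.symm⟩
  have h := Nat.card_congr (Equiv.ofBijective _ hbij)
  rw [Nat.card_prod, Nat.card_eq_fintype_card (α := Fin 3), Fintype.card_fin] at h
  exact h.symm

theorem p_FAC : Stmt_FAC := by
  intro D _ T
  exact ⟨Finite.of_surjective (Quot.mk _) Quot.mk_surjective, fun f => Quot.exists_rep f,
    FAC_next T, FAC_iff T, FAC_card T⟩

end ESub
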