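import Pool.Agent.Work.MP_a2fb93_gn.Interface
set_option autoImplicit false

/-! # Block FOR (helper17) -/

namespace ESub

open Classical in
/-- fuel recursion -/
noncomputable def FOR_F {S G : Type} [Group G] (par : S → S) (lab : S → G) (s0 : S) :
    ℕ → S → G
  | 0, _ => 1
  | n + 1, s => if s = s0 then 1 else FOR_F par lab s0 n (par s) * lab s

theorem p_FOR : Stmt_FOR := by
  intro S G _ dep par lab s0 h
  have e : ∀ n s, FOR_F par lab s0 (n + 1) s =
      @ite G (s = s0) (Classical.propDecidable _) 1 (FOR_F par lab s0 n (par s) * lab s) :=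
    fun n s => rfl
  have st : ∀ n s, dep s < n → FOR_F par lab s0 (n + 1) s = FOR_F par lab s0 n s := by
    intro n
    induction n with
    | zero => intro s hs; omega
    | succ k ih =>
      intro s hs
      rw [e (k + 1) s, e k s]
      by_cases h1 : s = s0
      · rw [if_pos h1, if_pos h1]
      · rw [if_neg h1, if_neg h1, ih (par s) (by have := h s h1; omega)]
  have st2 : ∀ s n, dep s + 1 ≤ n → FOR_F par lab s0 n s = FOR_F par lab s0 (dep s + 1) s := by
    intro s n hn
    induction n, hn using Nat.le_induction with
    | base => rfl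
    | succ n hn ih => rw [st n s (by omega), ih]
  refine ⟨fun s => FOR_F par lab s0 (dep s + 1) s, ?_⟩
  intro s hs
  have h1 := h s hs
  show FOR_F par lab s0 (dep s + 1) s = FOR_F par lab s0 (dep (par s) + 1) (par s) * lab s
  rw [e (dep s) s, if_neg hs, st2 (par s) (dep s) (by omega)]

end ESub
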