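import Pool.Agent.Work.MP_a2fb93_gn.Interface
set_option autoImplicit false

/-! # Block GPH (helper17) -/

namespace ESub

theorem GPH_org {D : Type} (T : Triangulation D) (N : Set T.Vertex) : ∀ (l : List D)
    (v w : T.Vertex), T.IsWalk l v w → v ∉ N → (∀ d ∈ l, T.tgt d ∉ N) → ∀ d ∈ l, T.org d ∉ N
  | [], _, _, _, _, _, d, hd => by simp at hd
  | e :: l, v, w, hw, hv, hN, d, hd => by
    have hw' : T.org e = v ∧ T.IsWalk l (T.tgt e) w := hw
    rcases List.mem_cons.mp hd with h | h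
    · subst h; rw [hw'.1]; exact hv
    · exact GPH_org T N l (T.tgt e) w hw'.2 (hN e (by simp))
        (fun x hx => hN x (List.mem_cons_of_mem _ hx)) d h

theorem GPH_rev {D : Type} [Finite D] (T : Triangulation D) (N : Set T.Vertex) (l : List D)
    (v w : T.Vertex) (hw : T.IsWalk l v w) (hv : v ∉ N) (hN : ∀ d ∈ l, T.tgt d ∉ N) :
    ∀ d ∈ T.rev l, T.tgt d ∉ N := by
  intro d hd
  unfold Triangulation.rev at hd
  rw [List.mem_reverse, List.mem_map] at hd
  obtain ⟨e, he, rfl⟩ := hd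
  rw [tgt_inv]
  exact GPH_org T N l v w hw hv hN e he

/-- joined off N -/
def GPH_r {D : Type} (T : Triangulation D) (N : Set T.Vertex) (v w : {v : T.Vertex // v ∉ N}) :
    Prop := ∃ l, T.IsWalk l v.1 w.1 ∧ ∀ d ∈ l, T.tgt d ∉ N

theorem GPH_eqv {D : Type} [Finite D] (T : Triangulation D) (N : Set T.Vertex) :
    Equivalence (GPH_r T N) where
  refl v := ⟨[], rfl, by simp⟩
  symm := by
    rintro v w ⟨l, hl, hN⟩
    exact ⟨T.rev l, walk_rev T hl, GPH_rev T N l v.1 w.1 hl v.2 hN⟩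
  trans := by
    rintro u v w ⟨l, hl, hN⟩ ⟨l', hl', hN'⟩
    refine ⟨l ++ l', walk_append T hl hl', ?_⟩
    intro d hd
    rcases List.mem_append.mp hd with h | h
    · exact hN d h
    · exact hN' d h

theorem p_GPH : Stmt_GPH := by
  intro D _ T N hC G _ h hh
  let s : Setoid {v : T.Vertex // v ∉ N} := ⟨GPH_r T N, GPH_eqv T N⟩
  let rep : {v : T.Vertex // v ∉ N} → {v : T.Vertex // v ∉ N} :=
    fun v => Quotient.out (Quotient.mk s v)
  have hrep : ∀ v, GPH_r T N (rep v) v := by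
    intro v
    have h1 : Quotient.mk s (rep v) = Quotient.mk s v := Quotient.out_eq (Quotient.mk s v)
    exact Quotient.exact h1
  choose l hl hN using hrep
  classical
  refine ⟨fun v => if hv : v ∉ N then ((l ⟨v, hv⟩).map h).prod else 1, ?_⟩
  intro d ho ht
  beta_reduce
  rw [dif_pos ho, dif_pos ht]
  have h1 : Quotient.mk s ⟨T.org d, ho⟩ = Quotient.mk s ⟨T.tgt d, ht⟩ := by
    apply Quotient.sound
    refine ⟨[d], ⟨rfl, rfl⟩, ?_⟩
    intro e he
    have : e = d := by simpa using he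
    rw [this]; exact ht
  have h2 : rep ⟨T.org d, ho⟩ = rep ⟨T.tgt d, ht⟩ := by
    show Quotient.out (Quotient.mk s _) = Quotient.out (Quotient.mk s _)
    rw [h1]
  have w1 := hl ⟨T.org d, ho⟩
  have w2 : T.IsWalk [d] (T.org d) (T.tgt d) := ⟨rfl, rfl⟩
  have w3 := walk_rev T (hl ⟨T.tgt d, ht⟩)
  have w4 := walk_append T (walk_append T w1 w2) w3
  rw [← h2] at w4
  have hoff : ∀ e ∈ l ⟨T.org d, ho⟩ ++ [d] ++ T.rev (l ⟨T.tgt d, ht⟩), T.tgt e ∉ N := by
    intro e he
    rcases List.mem_append.mp he with h3 | h3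
    · rcases List.mem_append.mp h3 with h4 | h4
      · exact hN _ e h4
      · have : e = d := by simpa using h4
        rw [this]; exact ht
    · exact GPH_rev T N _ _ _ (hl ⟨T.tgt d, ht⟩) (rep ⟨T.tgt d, ht⟩).2 (hN _) e h3
  have key := hC _ _ w4 (rep ⟨T.org d, ho⟩).2 hoff G h hh
  rw [List.map_append, List.map_append, List.prod_append, List.prod_append, prod_rev T hh] at key
  simp only [List.map_cons, List.map_nil, List.prod_cons, List.prod_nil, mul_one] at key
  rw [mul_inv_eq_one] at key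
  rw [← key]
  group

end ESub
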