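import Pool.Agent.Work.MP_a2fb93_gn.Interface
set_option autoImplicit false

/-!
Block LCN: few vertices of the cut graph in a ball (helper78)
-/

namespace ESub

open Finset Classical

theorem LCN_near {D : Type} [Finite D] {T : Triangulation D} (B : Bfs T) (n : ℕ) :
    ∀ v w : T.Vertex, T.Near n v w → B.dep v ≤ B.dep w + n ∧ B.dep w ≤ B.dep v + n := by
  induction n with
  | zero =>
    intro v w h
    have h' : v = w := h
    subst h'
    exact ⟨le_refl _, le_refl _⟩
  | succ n ih =>
    intro v w h
    rcases h with h | ⟨d, rfl, h⟩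
    · have := ih v w h
      omega
    · have h1 := ih _ _ h
      have h2 := B.lip d
      have h3 := B.lip (T.inv d)
      rw [tgt_inv, org_inv] at h3
      omega

theorem LCN_par {D : Type} {T : Triangulation D} (B : Bfs T) (q : T.Vertex) :
    B.dep (B.par q) = B.dep q - 1 := by
  unfold Bfs.par
  split_ifs with h
  · have h0 : B.dep B.v0 = 0 := (B.root _).2 rfl
    rw [h, h0]
  · have := B.dep_π q h
    omega

theorem LCN_iter {D : Type} {T : Triangulation D} (B : Bfs T) (q : T.Vertex) (n : ℕ) :
    B.dep (B.par^[n] q) = B.dep q - n := by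
  induction n with
  | zero => rfl
  | succ n ih =>
    rw [Function.iterate_succ_apply', LCN_par, ih]
    omega

theorem p_LCN : Stmt_LCN := by
  intro D _ T B C r v
  have hch : ∀ w : {w : T.Vertex // w ∈ C.CG ∧ T.Near r v w},
      ∃ d : C.X, ∃ n : ℕ, B.par^[n] (T.org d.1) = w.1 := by
    rintro ⟨w, ⟨d, hd, n, hn⟩, _⟩
    exact ⟨⟨d, hd⟩, n, hn⟩
  choose F N hFN using hch
  have hlt : ∀ w : {w : T.Vertex // w ∈ C.CG ∧ T.Near r v w},
      B.dep w.1 + r - B.dep v < 2 * r + 1 := by
    intro w
    have := LCN_near B r v w.1 w.2.2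
    omega
  let Φ : {w : T.Vertex // w ∈ C.CG ∧ T.Near r v w} → C.X × Fin (2 * r + 1) :=
    fun w => (F w, ⟨B.dep w.1 + r - B.dep v, hlt w⟩)
  have hinj : Function.Injective Φ := by
    intro w w' h
    have h1 : F w = F w' := congrArg Prod.fst h
    have h2 : B.dep w.1 + r - B.dep v = B.dep w'.1 + r - B.dep v :=
      congrArg Fin.val (congrArg Prod.snd h)
    have h3 := LCN_near B r v w.1 w.2.2
    have h4 := LCN_near B r v w'.1 w'.2.2
    have h5 : B.dep w.1 = B.dep w'.1 := by omega
    have e1 := hFN w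
    have e2 := hFN w'
    rw [← h1] at e2
    have i1 := LCN_iter B (T.org (F w).1) (N w)
    have i2 := LCN_iter B (T.org (F w).1) (N w')
    rw [e1] at i1
    rw [e2] at i2
    apply Subtype.ext
    by_cases h0 : B.dep w.1 = 0
    · have h0' : B.dep w'.1 = 0 := by omega
      rw [(B.root _).1 h0, (B.root _).1 h0']
    · have hN : N w = N w' := by omega
      rw [← e1, ← e2, hN]
  have hcard := Nat.card_le_card_of_injective Φ hinj
  rw [Nat.card_prod, Nat.card_eq_fintype_card (α := Fin (2 * r + 1)), Fintype.card_fin] at hcard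
  exact hcard

end ESub
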