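import Pool.Agent.Work.MP_a2fb93_gn.Interface
set_option autoImplicit false

/-! Block NMR: a numerical inequality. -/

namespace ESub

theorem NMR_gen (m A N : ℕ) (b c d : ℕ) (hab : d + c = b) (hm : m ≤ c)
    (h2 : N * 2 ^ b ≤ 2 ^ d * A) : N * 2 ^ m ≤ A := by
  rw [← hab, pow_add, mul_left_comm] at h2
  have h3 : N * 2 ^ c ≤ A := Nat.le_of_mul_le_mul_left h2 (pow_pos two_pos d)
  exact le_trans (Nat.mul_le_mul_left N (pow_le_pow_right₀ one_le_two hm)) h3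

theorem NMR_pow (k : ℕ) : 2 ^ (3 * k) ≤ 3 ^ (2 * k) := by
  rw [pow_mul, pow_mul]
  have h0 : (2 : ℕ) ^ 3 ≤ 3 ^ 2 := by norm_num
  exact pow_le_pow_left₀ (Nat.zero_le _) h0 k

theorem p_NMR : Stmt_NMR := by
  intro m A N h
  have h1 := NMR_pow (24 * (m + 1))
  have e2 : 48 * (m + 1) = 2 * (24 * (m + 1)) := by ring
  have h2 : N * 2 ^ (3 * (24 * (m + 1))) ≤ 2 ^ (6 * (m + 1) + 48 * (m + 1)) * A := by
    refine (Nat.mul_le_mul_left N h1).trans ?_
    rw [← e2]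
    exact h
  exact NMR_gen m A N (3 * (24 * (m + 1))) (18 * (m + 1)) (6 * (m + 1) + 48 * (m + 1))
    (by ring) (by omega) h2

end ESub
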