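import Pool.Agent.Work.MP_a2fb93_gn.Interface
import Pool.Agent.Work.MP_a2fb93_ev.B_CNT
import Pool.Agent.Work.MP_a2fb93_ev.B_LLS
import Pool.Agent.Work.MP_a2fb93_ev.B_HIGH
import Pool.Agent.Work.MP_a2fb93_ev.B_PICK
set_option autoImplicit false

/-! # MP_a2fb93_gn, block PKR: good shifts by the local lemma -/

namespace ESub

open Finset Classical PickAux

theorem PKR_ne (n : ℕ) (x y : ℤ) (a b : ℕ) (ha : a ≤ n) (hb : b ≤ n) (hab : a ≠ b) :
    ((n : ℤ) + 1) * x + (a : ℤ) ≠ ((n : ℤ) + 1) * y + (b : ℤ) := by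
  intro h
  rcases lt_trichotomy x y with hxy | hxy | hxy
  · have h1 : x + 1 ≤ y := hxy
    have h2 : ((n : ℤ) + 1) * (x + 1) ≤ ((n : ℤ) + 1) * y :=
      mul_le_mul_of_nonneg_left h1 (by positivity)
    have h3 : (a : ℤ) ≤ n := by exact_mod_cast ha
    have h4 : (0 : ℤ) ≤ b := by positivity
    linarith
  · subst hxy
    have : (a : ℤ) = b := by linarith
    exact hab (by exact_mod_cast this)
  · have h1 : y + 1 ≤ x := hxy
    have h2 : ((n : ℤ) + 1) * (y + 1) ≤ ((n : ℤ) + 1) * x :=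
      mul_le_mul_of_nonneg_left h1 (by positivity)
    have h3 : (b : ℤ) ≤ n := by exact_mod_cast hb
    have h4 : (0 : ℤ) ≤ a := by positivity
    linarith

theorem PKR_max {V : Type} [Fintype V] [Nonempty V] (n : ℕ) (f : V → ℤ) (ord : V → ℕ)
    (h1 : ∀ u, ord u ≤ n) (h2 : Function.Injective ord) :
    ∃ w : V, ∀ u, u ≠ w →
      ((n : ℤ) + 1) * f u + (ord u : ℤ) < ((n : ℤ) + 1) * f w + (ord w : ℤ) := by
  obtain ⟨w, -, hw⟩ := Finset.exists_max_image (Finset.univ : Finset V)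
    (fun u => ((n : ℤ) + 1) * f u + (ord u : ℤ)) Finset.univ_nonempty
  refine ⟨w, fun u hu => lt_of_le_of_ne (hw u (Finset.mem_univ u)) ?_⟩
  exact PKR_ne n (f u) (f w) (ord u) (ord w) (h1 u) (h1 w) (fun h => hu (h2 h))

theorem p_PKR (hNMR : Stmt_NMR) : Stmt_PKR := by
  intro D hD T N m M L hL hM hball
  obtain ⟨hfin, -, -, -, -, -, -, -, hrev, -, hnear, -⟩ := p_VTX D T
  have hTDF := p_TDF p_VTX D T L
  have : Fintype T.Vertex := Fintype.ofFinite _
  by_cases hNe : N.Nonempty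
  swap
  · rw [Set.not_nonempty_iff_eq_empty] at hNe
    subst hNe
    refine ⟨0, fun _ => 0, fun _ => 0, ?_, ?_, ?_, ?_⟩
    · intro u hu
      exact absurd hu (Set.notMem_empty u)
    · intro u hu
      exact absurd hu (Set.notMem_empty u)
    · intro u hu
      exact absurd hu (Set.notMem_empty u)
    · intro c _ a ha
      exact absurd ha (Set.notMem_empty a)
  -- the set of the centres
  obtain ⟨V, hFV, ι, hι, hιN, hιs⟩ : ∃ (V : Type) (_ : Fintype V) (ι : V → T.Vertex),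
      Function.Injective ι ∧ (∀ u, ι u ∈ N) ∧ ∀ v ∈ N, ∃ u, ι u = v :=
    ⟨{v : T.Vertex // v ∈ N}, Fintype.ofFinite _, fun u => u.1, Subtype.val_injective,
      fun u => u.2, fun v hv => ⟨⟨v, hv⟩, rfl⟩⟩
  obtain ⟨v0, hv0⟩ := hNe
  obtain ⟨u0, hu0⟩ := hιs v0 hv0
  have hNV : Nonempty V := ⟨u0⟩
  obtain ⟨b0, hb0⟩ : ∃ b0 : ℕ, b0 = 1024 := ⟨_, rfl⟩
  have hb1 : 2 * b0 * (m + 1) = L + 1 := by rw [hb0]; omega
  obtain ⟨n, hn⟩ : ∃ n, n = Nat.card T.Vertex := ⟨_, rfl⟩
  obtain ⟨R, hR⟩ : ∃ R, R = 3 * L + 1 := ⟨_, rfl⟩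
  obtain ⟨k, hk⟩ : ∃ k, k = 48 * (m + 1) := ⟨_, rfl⟩
  have hsym : ∀ (j : ℕ) (v w : T.Vertex), T.Near j v w → T.Near j w v := by
    intro j v w h
    obtain ⟨l, hl, hw⟩ := (hnear j v w).1 h
    refine (hnear j w v).2 ⟨T.rev l, ?_, hrev l v w hw⟩
    simpa [Triangulation.rev] using hl
  obtain ⟨ord, hord1, hord2⟩ : ∃ ord : T.Vertex → ℕ, (∀ u, ord u ≤ n) ∧
      Function.Injective ord := by
    refine ⟨fun u => ((Finite.equivFin T.Vertex u : Fin _) : ℕ), ?_, ?_⟩
    · intro u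
      have := (Finite.equivFin T.Vertex u).2
      rw [hn]
      exact this.le
    · intro u v huv
      exact (Finite.equivFin T.Vertex).injective (Fin.ext huv)
  have hshift : ∀ (ω : Out V (2 * b0) m) (u : V), shift ω u ≤ L := by
    intro ω u
    have h1 := shift_le ω u
    rw [hb1] at h1
    omega
  -- the walks
  have hwk : ∀ v w : T.Vertex, ∃ l : List D, T.Near R v w → l.length ≤ R ∧ T.IsWalk l v w := by
    intro v w
    by_cases h : T.Near R v w
    · obtain ⟨l, hl⟩ := (hnear R v w).1 h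
      exact ⟨l, fun _ => hl⟩
    · exact ⟨[], fun h' => absurd h' h⟩
  choose wk hwk using hwk
  -- the positions
  obtain ⟨ps, hps⟩ : ∃ ps : V → V → ℕ → T.Vertex,
      ∀ a b i, ps a b i = pos T (wk (ι a) (ι b)) (ι a) i := ⟨_, fun _ _ _ => rfl⟩
  -- the distances
  obtain ⟨g, hg⟩ : ∃ g : V → V → V → ℕ → ℕ, ∀ a b u i, g a b u i =
      if T.Near (R + L) (ι a) (ι u) then T.td L (ι u) (ps a b i) else 2 * L + 2 :=
    ⟨_, fun _ _ _ _ => rfl⟩
  have hWex : ∀ (a b : V) (ω : Out V (2 * b0) m) (i : ℕ), ∃ w : V, ∀ u, u ≠ w →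
      ((n : ℤ) + 1) * ((shift ω u : ℤ) - (g a b u i : ℤ)) + (ord (ι u) : ℤ) <
        ((n : ℤ) + 1) * ((shift ω w : ℤ) - (g a b w i : ℤ)) + (ord (ι w) : ℤ) := by
    intro a b ω i
    exact PKR_max n (fun u => (shift ω u : ℤ) - (g a b u i : ℤ)) (fun u => ord (ι u))
      (fun u => hord1 (ι u)) (fun u v h => hι (hord2 h))
  choose W hW using hWex
  -- the winners are near
  have hWQ : ∀ a b ω i, T.Near (R + L) (ι a) (ι (W a b ω i)) := by
    intro a b ω i
    by_contra hcon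
    have haa : T.Near (R + L) (ι a) (ι a) := near_refl T _ _
    have hne : a ≠ W a b ω i := by
      intro h
      rw [← h] at hcon
      exact hcon haa
    have h1 := hW a b ω i a hne
    rw [hg a b a i, if_pos haa, hg a b (W a b ω i) i, if_neg hcon] at h1
    have h2 : T.td L (ι a) (ps a b i) ≤ L + 1 := hTDF.1 _ _
    have h3 : shift ω (W a b ω i) ≤ L := hshift ω _
    have h4 : ord (ι (W a b ω i)) ≤ n := hord1 _
    have h5 : ((n : ℤ) + 1) * (-((L : ℤ) + 1)) ≤
        ((n : ℤ) + 1) * ((shift ω a : ℤ) - (T.td L (ι a) (ps a b i) : ℤ)) := by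
      apply mul_le_mul_of_nonneg_left _ (by positivity)
      have h6 : (T.td L (ι a) (ps a b i) : ℤ) ≤ (L : ℤ) + 1 := by
        exact_mod_cast h2
      have h7 : (0 : ℤ) ≤ (shift ω a : ℤ) := by positivity
      linarith
    have h6 : ((n : ℤ) + 1) * ((shift ω (W a b ω i) : ℤ) - ((2 * L + 2 : ℕ) : ℤ)) ≤
        ((n : ℤ) + 1) * (-((L : ℤ) + 2)) := by
      apply mul_le_mul_of_nonneg_left _ (by positivity)
      have h7 : (shift ω (W a b ω i) : ℤ) ≤ L := by exact_mod_cast h3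
      push_cast
      linarith
    have h7 : (ord (ι (W a b ω i)) : ℤ) ≤ n := by exact_mod_cast h4
    have h8 : (0 : ℤ) ≤ (ord (ι a) : ℤ) := by positivity
    have h9 : ((n : ℤ) + 1) * (-((L : ℤ) + 1)) =
        ((n : ℤ) + 1) * (-((L : ℤ) + 2)) + ((n : ℤ) + 1) := by ring
    linarith
  obtain ⟨Z, hZ⟩ : ∃ Z : V → Out V (2 * b0) m → Prop, ∀ u ω, Z u ω ↔ ((ω u).2 : ℕ) = 0 :=
    ⟨_, fun _ _ => Iff.rfl⟩
  obtain ⟨G, hG⟩ : ∃ G : V → V → Out V (2 * b0) m → Prop, ∀ a b ω, G a b ω ↔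
      ((∀ i < R + 1, ((ω (W a b ω i)).2 : ℕ) ≠ 0) ∧
        k ≤ ((range (R + 1)).image (W a b ω)).card) := ⟨_, fun _ _ _ => Iff.rfl⟩
  obtain ⟨E, hE⟩ : ∃ E : V → Out V (2 * b0) m → Prop, ∀ a ω, E a ω ↔
      ((∃ u : V, T.Near (R + L) (ι a) (ι u) ∧ Z u ω) ∨
        (∃ b : V, T.Near R (ι a) (ι b) ∧ G a b ω)) := ⟨_, fun _ _ => Iff.rfl⟩
  obtain ⟨Q, hQ⟩ : ∃ Q : V → Finset V, ∀ a u, u ∈ Q a ↔ T.Near (R + L) (ι a) (ι u) :=
    ⟨fun a => univ.filter (fun u => T.Near (R + L) (ι a) (ι u)), fun a u => by simp⟩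
  -- dependence
  have hdepW : ∀ (a b : V) (ω ω' : Out V (2 * b0) m), (∀ u ∈ Q a, ω u = ω' u) →
      ∀ i, W a b ω i = W a b ω' i := by
    intro a b ω ω' hω i
    by_contra hne
    have hs : ∀ u ∈ Q a, shift ω u = shift ω' u := by
      intro u hu
      unfold shift
      rw [hω u hu]
    have h1 := hW a b ω i (W a b ω' i) (fun h => hne h.symm)
    have h2 := hW a b ω' i (W a b ω i) hne
    rw [hs _ ((hQ a _).2 (hWQ a b ω i)), hs _ ((hQ a _).2 (hWQ a b ω' i))] at h1
    exact lt_asymm h1 h2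
  have hdep1 : ∀ (a : V) (ω ω' : Out V (2 * b0) m), (∀ u ∈ Q a, ω u = ω' u) →
      E a ω → E a ω' := by
    intro a ω ω' hω h
    rw [hE] at h ⊢
    rcases h with ⟨u, hu, h⟩ | ⟨b, hb, h⟩
    · refine Or.inl ⟨u, hu, ?_⟩
      rw [hZ] at h ⊢
      rw [← hω u ((hQ a u).2 hu)]
      exact h
    · refine Or.inr ⟨b, hb, ?_⟩
      rw [hG] at h ⊢
      constructor
      · intro i hi
        rw [← hdepW a b ω ω' hω i, ← hω _ ((hQ a _).2 (hWQ a b ω i))]
        exact h.1 i hi
      · have : W a b ω' = W a b ω := funext fun i => (hdepW a b ω ω' hω i).symm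
        rw [this]
        exact h.2
  have hdep : ∀ a, DepOn (Q a) (E a) := by
    intro a ω ω' hω
    exact ⟨hdep1 a ω ω' hω, hdep1 a ω' ω (fun u hu => (hω u hu).symm)⟩
  -- ball sizes
  have hball' : ∀ (j : ℕ) (a : V), j ≤ 2 ^ 14 * (m + 1) →
      (univ.filter (fun u : V => T.Near j (ι a) (ι u))).card ≤ M := by
    intro j a hj
    refine le_trans (le_of_eq (card_filter_eq _)) (le_trans ?_ (hball (ι a) (hιN a)))
    refine Nat.card_le_card_of_injective
      (fun u : {u : V // T.Near j (ι a) (ι u)} =>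
        (⟨ι u.1, hιN u.1, near_mono T hj u.2⟩ :
          {w : T.Vertex // w ∈ N ∧ T.Near (2 ^ 14 * (m + 1)) (ι a) w})) ?_
    intro u v huv
    exact Subtype.ext (hι (congrArg Subtype.val huv))
  have hM1 : 1 ≤ M := by
    refine le_trans ?_ (hball' 0 u0 (Nat.zero_le _))
    have : 0 < (univ.filter (fun u : V => T.Near 0 (ι u0) (ι u))).card :=
      Finset.card_pos.2 ⟨u0, Finset.mem_filter.2 ⟨Finset.mem_univ _, near_refl T _ _⟩⟩
    omega
  have hmeet : ∀ a, (univ.filter (fun b => ¬ Disjoint (Q a) (Q b))).card ≤ M := by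
    intro a
    refine le_trans (Finset.card_le_card ?_) (hball' (2 ^ 14 * (m + 1)) a le_rfl)
    intro b hb
    rw [Finset.mem_filter] at hb ⊢
    refine ⟨hb.1, ?_⟩
    obtain ⟨u, hu1, hu2⟩ := Finset.not_disjoint_iff.1 hb.2
    have h1 := (hQ a u).1 hu1
    have h2 := hsym _ _ _ ((hQ b u).1 hu2)
    exact near_mono T (by omega) (near_trans T _ _ _ _ _ h1 h2)
  -- counts
  obtain ⟨A, hA⟩ : ∃ A, A = Fintype.card (Out V (2 * b0) m) := ⟨_, rfl⟩
  obtain ⟨N1, hN1⟩ : ∃ N1, N1 = A / 2 ^ m := ⟨_, rfl⟩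
  have hN1' : N1 * 2 ^ m ≤ A := by
    rw [hN1]; exact Nat.div_mul_le_self _ _
  have hZc : ∀ u, (univ.filter (Z u)).card ≤ N1 := by
    intro u
    rw [hN1, Nat.le_div_iff_mul_le (by positivity), hA]
    have h1 := p_HIGH V (2 * b0) m u
    have h2 : univ.filter (Z u) =
        univ.filter (fun ω : Out V (2 * b0) m => ((ω u).2 : ℕ) = 0) := by
      ext ω
      rw [Finset.mem_filter, Finset.mem_filter, hZ]
    rw [h2]
    exact h1
  have hGc : ∀ a b, T.Near R (ι a) (ι b) → (univ.filter (G a b)).card ≤ N1 := by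
    intro a b h
    rw [hN1, Nat.le_div_iff_mul_le (by positivity)]
    apply hNMR m A
    rw [hA]
    have hw := (hwk (ι a) (ι b) h).2
    have hstep : ∀ (u : T.Vertex) (i : ℕ),
        T.td L u (ps a b i) ≤ T.td L u (ps a b (i + 1)) + 1 ∧
        T.td L u (ps a b (i + 1)) ≤ T.td L u (ps a b i) + 1 := by
      intro u i
      rw [hps, hps]
      rcases pos_step T (wk (ι a) (ι b)) (ι a) (ι b) hw i with h' | ⟨d, h1, h2⟩
      · rw [h']; omega
      · rw [← h1, ← h2]
        exact ⟨hTDF.2.2.1 u d, hTDF.2.2.2.1 u d⟩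
    have hLip0 : ∀ (u : T.Vertex) (i j : ℕ), i ≤ j →
        T.td L u (ps a b i) ≤ T.td L u (ps a b j) + (j - i) ∧
        T.td L u (ps a b j) ≤ T.td L u (ps a b i) + (j - i) := by
      intro u i j hij
      obtain ⟨t, rfl⟩ := Nat.exists_eq_add_of_le hij
      clear hij
      induction t with
      | zero => simp
      | succ t ih =>
        have h1 := hstep u (i + t)
        have e : i + (t + 1) = (i + t) + 1 := by omega
        rw [e]
        constructor
        · have := ih.1; omega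
        · have := ih.2; omega
    have hLip : ∀ (u : V) (i j : ℕ), i ≤ j →
        g a b u i ≤ g a b u j + (j - i) ∧ g a b u j ≤ g a b u i + (j - i) := by
      intro u i j hij
      rw [hg, hg]
      by_cases hu : T.Near (R + L) (ι a) (ι u)
      · rw [if_pos hu, if_pos hu]
        exact hLip0 (ι u) i j hij
      · rw [if_neg hu, if_neg hu]
        omega
    have h1 := p_CNT V b0 m (R + 1) (6 * (m + 1)) n (g a b)
      (fun u => ord (ι u)) (W a b) (by rw [hb0]; norm_num)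
      (by rw [hb0]; omega) (fun u => hord1 (ι u)) hLip (by
        intro ω i u _ hu
        exact hW a b ω i u hu) (48 * (m + 1))
    have h2 : univ.filter (G a b) =
        univ.filter (fun ω : Out V (2 * b0) m => (∀ i < R + 1, ((ω (W a b ω i)).2 : ℕ) ≠ 0) ∧
          48 * (m + 1) ≤ ((range (R + 1)).image (W a b ω)).card) := by
      ext ω
      rw [Finset.mem_filter, Finset.mem_filter, hG, hk]
    rw [h2]
    exact h1
  have hEc : ∀ a, (univ.filter (E a)).card ≤ M * N1 + M * N1 := by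
    intro a
    have hsub : univ.filter (E a) ⊆
        ((univ.filter (fun u : V => T.Near (R + L) (ι a) (ι u))).biUnion
          (fun u => univ.filter (Z u))) ∪
        ((univ.filter (fun b : V => T.Near R (ι a) (ι b))).biUnion
          (fun b => univ.filter (G a b))) := by
      intro ω hω
      rw [Finset.mem_filter, hE] at hω
      rw [Finset.mem_union, Finset.mem_biUnion, Finset.mem_biUnion]
      rcases hω.2 with ⟨u, hu, h⟩ | ⟨b, hb, h⟩
      · refine Or.inl ⟨u, Finset.mem_filter.2 ⟨Finset.mem_univ _, hu⟩, ?_⟩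
        exact Finset.mem_filter.2 ⟨Finset.mem_univ _, h⟩
      · refine Or.inr ⟨b, Finset.mem_filter.2 ⟨Finset.mem_univ _, hb⟩, ?_⟩
        exact Finset.mem_filter.2 ⟨Finset.mem_univ _, h⟩
    refine le_trans (Finset.card_le_card hsub) (le_trans (Finset.card_union_le _ _) ?_)
    apply Nat.add_le_add
    · refine le_trans (Finset.card_biUnion_le_card_mul _ _ N1 (fun u _ => hZc u)) ?_
      exact Nat.mul_le_mul_right _ (hball' (R + L) a (by omega))
    · refine le_trans (Finset.card_biUnion_le_card_mul _ _ N1 (fun b hb => hGc a b ?_)) ?_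
      · exact (Finset.mem_filter.1 hb).2
      · exact Nat.mul_le_mul_right _ (hball' R a (by omega))
  have hprob : ∀ a, 6 * M * (univ.filter (E a)).card ≤
      Fintype.card (V → Fin (2 * b0) × Fin (2 ^ m)) := by
    intro a
    have h2 : 6 * M * (univ.filter (E a)).card ≤ 6 * M * (M * N1 + M * N1) :=
      Nat.mul_le_mul_left _ (hEc a)
    have h3 : 6 * M * (M * N1 + M * N1) = 12 * M ^ 2 * N1 := by ring
    have h4 : 12 * M ^ 2 * N1 ≤ 2 ^ m * N1 := Nat.mul_le_mul_right _ hM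
    calc _ ≤ _ := h2
      _ = _ := h3
      _ ≤ _ := h4
      _ = N1 * 2 ^ m := by ring
      _ ≤ A := hN1'
      _ = _ := hA
  have : Nonempty (Fin (2 * b0) × Fin (2 ^ m)) :=
    ⟨(⟨0, by rw [hb0]; norm_num⟩, ⟨0, by positivity⟩)⟩
  obtain ⟨ω, hω⟩ := p_LLS V (Fin (2 * b0) × Fin (2 ^ m)) E Q M hM1 hdep
    (fun a => by convert hmeet a) (fun a => by convert hprob a)
  obtain ⟨δ, hδ⟩ : ∃ δ : T.Vertex → ℕ, ∀ u : V, δ (ι u) = shift ω u := by
    refine ⟨Function.extend ι (shift ω) (fun _ => 0), fun u => ?_⟩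
    exact hι.extend_apply _ _ _
  refine ⟨n, δ, ord, ?_, fun u _ => hord1 u, hord2.injOn, ?_⟩
  · intro u hu
    obtain ⟨u', rfl⟩ := hιs u hu
    rw [hδ u']
    exact hshift ω _
  · intro c hc a' ha b' hb hab
    obtain ⟨a, rfl⟩ := hιs a' ha
    obtain ⟨b, rfl⟩ := hιs b' hb
    rw [← hR] at hab ⊢
    rw [← hk]
    obtain ⟨hwk1, hwk2⟩ := hwk (ι a) (ι b) hab
    refine ⟨wk (ι a) (ι b), hwk2, hwk1, ?_⟩
    have hEω := hω a
    rw [hE] at hEω
    push Not at hEω
    have hZ' : ∀ u : V, T.Near (R + L) (ι a) (ι u) → ((ω u).2 : ℕ) ≠ 0 := by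
      intro u hu h
      exact hEω.1 u hu ((hZ u ω).2 h)
    have hG' : ¬ G a b ω := hEω.2 b hab
    have hcard : ((range (R + 1)).image (W a b ω)).card < k := by
      by_contra hcon
      push Not at hcon
      exact hG' ((hG a b ω).2 ⟨fun i _ => hZ' _ (hWQ a b ω i), hcon⟩)
    -- the centre at a position is the winner
    have hwin : ∀ i (u : T.Vertex), c (ps a b i) = some u → ι (W a b ω i) = u := by
      intro i u hu
      obtain ⟨huN, htd, hsc⟩ := hc _ _ hu
      obtain ⟨u', rfl⟩ := hιs u huN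
      by_contra hne
      have h1 : T.td L (ι u') (ps a b i) ≤ L := by
        refine htd.trans ?_
        rw [hδ u']
        exact hshift ω _
      have h2 : T.Near L (ps a b i) (ι u') := (hTDF.2.2.2.2.2.2 _ _).1 h1
      have h3 : T.Near R (ι a) (ps a b i) := by
        rw [hps]
        exact near_mono T hwk1 (pos_near T (wk (ι a) (ι b)) (ι a) (ι b) hwk2 i)
      have h4 : T.Near (R + L) (ι a) (ι u') := near_trans T R L _ _ _ h3 h2
      have h5 := hW a b ω i u' (fun h => hne (by rw [← h]))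
      have h6 := hWQ a b ω i
      rw [hg, if_pos h4, hg, if_pos h6] at h5
      have h7 := hsc (ι (W a b ω i)) (hιN _) hne
      unfold score at h7
      rw [hδ (W a b ω i), hδ u'] at h7
      exact lt_asymm h5 h7
    have hncn : ncn T c (ι a) (wk (ι a) (ι b)) ≤
        ((range (R + 1)).image (W a b ω)).card := by
      unfold ncn
      refine le_trans (Finset.card_le_card (t := ((range (R + 1)).image
        (W a b ω)).image (fun v => some (ι v))) ?_) Finset.card_image_le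
      intro x hx
      obtain ⟨hxn, hx⟩ := Finset.mem_erase.1 hx
      obtain ⟨i, hi, hix⟩ : ∃ i, i < R + 1 ∧ c (ps a b i) = x := by
        rcases Finset.mem_insert.1 hx with h | hx
        · exact ⟨0, by omega, by rw [hps, pos_zero, h]⟩
        · rw [List.mem_toFinset, List.mem_map] at hx
          obtain ⟨d, hd, rfl⟩ := hx
          obtain ⟨i, hi, h⟩ := pos_mem T (wk (ι a) (ι b)) (ι a) d hd
          exact ⟨i, by omega, by rw [hps, h]⟩
      obtain ⟨u, hu⟩ := Option.ne_none_iff_exists'.1 hxn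
      rw [Finset.mem_image]
      refine ⟨W a b ω i, Finset.mem_image_of_mem _ (Finset.mem_range.2 hi), ?_⟩
      rw [hu, hwin i u (by rw [hix, hu])]
    omega

end ESub
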