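import Pool.Agent.Work.MP_a2fb93_gn.Interface
set_option autoImplicit false

/-! # MP_a2fb93_gn, block TBR: transport along all walks -/

namespace ESub

open Finset Classical

theorem TBR_tri (a b : Aff ℤ) : |(a * b).t| ≤ |a.t| + |b.t| := by
  rw [Aff.mul_t]
  rcases Int.units_eq_one_or a.s with h | h
  · rw [h]
    have := abs_add_le a.t b.t
    simpa using this
  · rw [h]
    have := abs_add_le a.t (-b.t)
    rw [abs_neg] at this
    simpa using this

theorem TBR_one {D : Type} {T : Triangulation D} {L : ℕ} {c : T.Vertex → Option T.Vertex}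
    {γ : T.Vertex → List D} {ρ : D → Aff ℤ} (hC : Clu T L c γ ρ) (l : List D)
    (h : ∀ e ∈ l, c (T.org e) = c (T.tgt e)) : (l.map ρ).prod = 1 := by
  induction l with
  | nil => rfl
  | cons d l ih =>
    rw [List.map_cons, List.prod_cons, hC.one d (h d List.mem_cons_self),
      ih fun e he => h e (List.mem_cons_of_mem _ he), one_mul]

/-- the last vertex in a cluster -/
theorem TBR_last {D : Type} {T : Triangulation D} (c : T.Vertex → Option T.Vertex) (l : List D) :
    ∀ v w : T.Vertex, T.IsWalk l v w → c w = none →
      (∀ e ∈ l, c (T.org e) = none ∧ c (T.tgt e) = none) ∨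
        ∃ l1 d l2, l = l1 ++ d :: l2 ∧ c (T.org d) ≠ none ∧
          ∀ e ∈ l2, c (T.org e) = none ∧ c (T.tgt e) = none := by
  induction l with
  | nil =>
    intro v w _ _
    left
    intro e he
    exact absurd he List.not_mem_nil
  | cons d l ih =>
    intro v w hl hw
    obtain ⟨h1, h2⟩ := hl
    rcases ih _ _ h2 hw with h | ⟨l1, d', l2, h3, h4, h5⟩
    · by_cases hd : c (T.org d) = none
      · left
        have ht : c (T.tgt d) = none := by
          cases l with
          | nil =>
            have h6 : T.tgt d = w := h2
            rw [h6]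
            exact hw
          | cons d'' l' =>
            have h6 : T.org d'' = T.tgt d := h2.1
            rw [← h6]
            exact (h d'' List.mem_cons_self).1
        intro e he
        rcases List.mem_cons.1 he with rfl | he
        · exact ⟨hd, ht⟩
        · exact h e he
      · right
        exact ⟨[], d, l, rfl, hd, h⟩
    · right
      refine ⟨d :: l1, d', l2, ?_, h4, h5⟩
      rw [h3, List.cons_append]

/-- the first vertex in a cluster -/
theorem TBR_first {D : Type} {T : Triangulation D} (c : T.Vertex → Option T.Vertex) (l : List D) :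
    ∀ v w : T.Vertex, T.IsWalk l v w → c v = none →
      (∀ e ∈ l, c (T.org e) = none ∧ c (T.tgt e) = none) ∨
        ∃ l1 d l2, l = l1 ++ d :: l2 ∧ c (T.tgt d) ≠ none ∧
          ∀ e ∈ l1, c (T.org e) = none ∧ c (T.tgt e) = none := by
  induction l with
  | nil =>
    intro v w _ _
    left
    intro e he
    exact absurd he List.not_mem_nil
  | cons d l ih =>
    intro v w hl hv
    obtain ⟨h1, h2⟩ := hl
    by_cases hd : c (T.tgt d) = none
    · rcases ih _ _ h2 hd with h | ⟨l1, d', l2, h3, h4, h5⟩
      · left
        intro e he
        rcases List.mem_cons.1 he with rfl | he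
        · exact ⟨by rw [h1]; exact hv, hd⟩
        · exact h e he
      · right
        refine ⟨d :: l1, d', l2, by rw [h3, List.cons_append], h4, ?_⟩
        intro e he
        rcases List.mem_cons.1 he with rfl | he
        · exact ⟨by rw [h1]; exact hv, hd⟩
        · exact h5 e he
    · right
      exact ⟨[], d, l, rfl, hd, fun e he => absurd he List.not_mem_nil⟩

theorem p_TBR (hTRR : Stmt_TRR) : Stmt_TBR := by
  intro D _ T n L R k hR hw hRL hRR hk c γ ρ hC hch
  have hrlen : ∀ l : List D, (T.rev l).length = l.length := by
    intro l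
    unfold Triangulation.rev
    rw [List.length_reverse, List.length_map]
  have hγ : ∀ v u, c v = some u → ((γ v).map ρ).prod = 1 := by
    intro v u hv
    refine TBR_one hC _ ?_
    intro e he
    obtain ⟨h1, h2⟩ := hC.mem v u hv e he
    rw [h1, h2]
  -- (1) from cluster to cluster
  have hcc : ∀ (l : List D) (v w : T.Vertex), T.IsWalk l v w → l.length ≤ R → c v ≠ none →
      c w ≠ none → |((l.map ρ).prod).t| ≤ 8 * (k : ℤ) := by
    intro l v w hl hlen hv hw'
    obtain ⟨a, ha⟩ := Option.ne_none_iff_exists'.1 hv
    obtain ⟨b, hb⟩ := Option.ne_none_iff_exists'.1 hw'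
    have h1 : T.IsWalk (T.rev (γ v) ++ l ++ γ w) a b :=
      walk_append T (walk_append T (walk_rev T (hC.walk v a ha)) hl) (hC.walk w b hb)
    have h2 : (T.rev (γ v) ++ l ++ γ w).length ≤ R + 2 * L := by
      rw [List.length_append, List.length_append, hrlen]
      have e1 := hC.len v a ha
      have e2 := hC.len w b hb
      omega
    obtain ⟨l0, h3, h4, h5⟩ := hch v w a b ha hb ((near_iff T _ a b).2 ⟨_, h2, h1⟩)
    have h6 := short_closed T hw (walk_append T h1 (walk_rev T h3)) (by
      rw [List.length_append, hrlen]
      omega) hC.flat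
    rw [List.map_append, List.prod_append, prod_rev T hC.flat, mul_inv_eq_one, List.map_append,
      List.map_append, List.prod_append, List.prod_append, prod_rev T hC.flat, hγ v a ha,
      hγ w b hb, inv_one, one_mul, mul_one] at h6
    rw [h6]
    have h7 := (hTRR D T n L (R + 2 * L) hw (by omega) c γ ρ hC l0 a b h3 h4).1
    have h8 : (ncn T c a l0 : ℤ) ≤ k := by exact_mod_cast h5
    linarith
  -- (2) from a cluster
  have hcl : ∀ (l : List D) (v w : T.Vertex), T.IsWalk l v w → l.length ≤ R → c v ≠ none →
      |((l.map ρ).prod).t| ≤ 8 * (k : ℤ) + 4 := by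
    intro l v w hl hlen hv
    by_cases hw' : c w = none
    · rcases TBR_last c l v w hl hw' with h | ⟨l1, d, l2, h1, h2, h3⟩
      · rw [TBR_one hC l fun e he => by rw [(h e he).1, (h e he).2], Aff.one_t, abs_zero]
        positivity
      · rw [h1] at hl hlen
        obtain ⟨u, h4, h5⟩ := walk_split T hl
        have h6 : T.org d = u := h5.1
        rw [h1, List.map_append, List.prod_append, List.map_cons, List.prod_cons,
          TBR_one hC l2 fun e he => by rw [(h3 e he).1, (h3 e he).2], mul_one]
        have h7 := TBR_tri ((l1.map ρ).prod) (ρ d)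
        have h8 := hcc l1 v u h4 (by rw [List.length_append] at hlen; omega) hv
          (by rw [← h6]; exact h2)
        have h9 := hC.t4 d
        linarith
    · have h1 := hcc l v w hl hlen hv hw'
      linarith
  -- (3) all short walks
  have hshort' : ∀ (l : List D) (v w : T.Vertex), T.IsWalk l v w → l.length ≤ R →
      |((l.map ρ).prod).t| ≤ 8 * (k : ℤ) + 8 := by
    intro l v w hl hlen
    by_cases hv : c v = none
    · rcases TBR_first c l v w hl hv with h | ⟨l1, d, l2, h1, h2, h3⟩
      · rw [TBR_one hC l fun e he => by rw [(h e he).1, (h e he).2], Aff.one_t, abs_zero]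
        positivity
      · rw [h1] at hl hlen
        obtain ⟨u, h4, h5⟩ := walk_split T hl
        rw [h1, List.map_append, List.prod_append, List.map_cons, List.prod_cons,
          TBR_one hC l1 fun e he => by rw [(h3 e he).1, (h3 e he).2], one_mul]
        have h7 := TBR_tri (ρ d) ((l2.map ρ).prod)
        have h8 := hcl l2 (T.tgt d) w h5.2
          (by rw [List.length_append, List.length_cons] at hlen; omega) h2
        have h9 := hC.t4 d
        linarith
    · have h1 := hcl l v w hl hlen hv
      linarith
  have hshort : ∀ (l : List D) (v w : T.Vertex), T.IsWalk l v w → l.length ≤ R →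
      |((((l.map ρ).prod).t : ℤ) : ℝ)| ≤ (R : ℝ) / 4 := by
    intro l v w hl hlen
    have h1 := hshort' l v w hl hlen
    have h2 : ((|((l.map ρ).prod).t| : ℤ) : ℝ) ≤ ((8 * (k : ℤ) + 8 : ℤ) : ℝ) := by exact_mod_cast h1
    have h3 : ((32 * (k + 1) : ℕ) : ℝ) ≤ (R : ℝ) := by exact_mod_cast hk
    push_cast at h2 h3
    linarith
  have key : ∀ (k : ℕ) (l : List D) (v w : T.Vertex), l.length = k → T.IsWalk l v w →
      |((((l.map ρ).prod).t : ℤ) : ℝ)| ≤ (l.length : ℝ) / 4 + (R : ℝ) / 4 := by
    intro k
    induction k using Nat.strong_induction_on with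
    | _ k ih =>
      intro l v w hk hl
      by_cases hlen : l.length ≤ R
      · have h1 := hshort l v w hl hlen
        have h2 : (0 : ℝ) ≤ (l.length : ℝ) := Nat.cast_nonneg _
        linarith
      · push Not at hlen
        have h1 : l.take R ++ l.drop R = l := List.take_append_drop R l
        obtain ⟨u, h2, h3⟩ := walk_split T (l := l.take R) (l' := l.drop R) (u := v) (w := w)
          (by rw [h1]; exact hl)
        have h4 : (l.take R).length = R := by
          rw [List.length_take]; omega
        have h5 : (l.drop R).length = l.length - R := List.length_drop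
        have h6 := hshort _ v u h2 (le_of_eq h4)
        have h7 := ih (l.drop R).length (by omega) (l.drop R) u w rfl h3
        have h8 : (l.map ρ).prod = ((l.take R).map ρ).prod * ((l.drop R).map ρ).prod := by
          rw [← List.prod_append, ← List.map_append, h1]
        rw [h8]
        have h9 : ((l.drop R).length : ℝ) = (l.length : ℝ) - (R : ℝ) := by
          rw [h5, Nat.cast_sub hlen.le]
        rw [h9] at h7
        generalize ((l.take R).map ρ).prod = a at h6 ⊢
        generalize ((l.drop R).map ρ).prod = b at h7 ⊢
        have h10 : ((|(a * b).t| : ℤ) : ℝ) ≤ ((|a.t| + |b.t| : ℤ) : ℝ) := by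
          exact_mod_cast TBR_tri a b
        push_cast at h10
        linarith
  intro l v w hl
  exact key _ l v w rfl hl

end ESub

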