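import Pool.Agent.Work.MP_a2fb93_gn.Interface
import Pool.Agent.Work.MP_a2fb93_ev.B_TRA

/-! # MP_a2fb93_co, block TRR: transport along short walks (helper15) -/

set_option autoImplicit false

namespace ESub

open Finset Classical

theorem TRR_split {D : Type} (T : Triangulation D) (c : T.Vertex → Option T.Vertex)
    (a : Option T.Vertex) :
    ∀ (l : List D) (v w : T.Vertex), T.IsWalk l v w →
      (∀ d ∈ l, c (T.tgt d) ≠ a) ∨ ∃ (l1 l2 : List D) (u : T.Vertex), l = l1 ++ l2 ∧
        T.IsWalk l1 v u ∧ T.IsWalk l2 u w ∧ c u = a ∧ ∀ d ∈ l2, c (T.tgt d) ≠ a := by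
  intro l
  induction l with
  | nil =>
    intro v w _
    left
    intro d hd
    simp at hd
  | cons d l ih =>
    intro v w h
    obtain ⟨h1, h2⟩ := h
    rcases ih (T.tgt d) w h2 with h3 | ⟨l1, l2, u, h3, h4, h5, h6, h7⟩
    · by_cases h4 : c (T.tgt d) = a
      · right
        exact ⟨[d], l, T.tgt d, rfl, ⟨h1, rfl⟩, h2, h4, h3⟩
      · left
        intro e he
        rcases List.mem_cons.1 he with rfl | he
        · exact h4
        · exact h3 e he
    · right
      refine ⟨d :: l1, l2, u, ?_, ⟨h1, h4⟩, h5, h6, h7⟩
      rw [h3]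
      rfl

theorem TRR_split' {D : Type} (T : Triangulation D) (c : T.Vertex → Option T.Vertex)
    (l : List D) (v w : T.Vertex) (h : T.IsWalk l v w) :
    ∃ (l1 l2 : List D) (u : T.Vertex), l = l1 ++ l2 ∧
        T.IsWalk l1 v u ∧ T.IsWalk l2 u w ∧ c u = c v ∧ ∀ d ∈ l2, c (T.tgt d) ≠ c v := by
  rcases TRR_split T c (c v) l v w h with h1 | h1
  · exact ⟨[], l, v, rfl, rfl, h, rfl, h1⟩
  · exact h1

theorem TRR_mul {D : Type} (_T : Triangulation D) (ρ : D → Aff ℤ) (h : ∀ d, |(ρ d).t| ≤ 4)
    (d : D) (l : List D) :
    |(((d :: l).map ρ).prod).t| ≤ 4 + |((l.map ρ).prod).t| := by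
  have h4 : (((d :: l).map ρ).prod).t = (ρ d).t + (((ρ d).s : ℤ)) * ((l.map ρ).prod).t := by
    rw [List.map_cons, List.prod_cons, Aff.mul_t]
    simp
  rw [h4]
  refine (abs_add_le _ _).trans (add_le_add (h d) (le_of_eq ?_))
  rw [abs_mul]
  rcases Int.units_eq_one_or (ρ d).s with h6 | h6 <;> rw [h6] <;> simp

theorem TRR_ncn {D : Type} (T : Triangulation D) (c : T.Vertex → Option T.Vertex) (v : T.Vertex)
    (d : D) (l1 l2 : List D) : ncn T c (T.tgt d) l2 ≤ ncn T c v (l1 ++ d :: l2) := by
  unfold ncn
  refine Finset.card_le_card ?_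
  intro x hx
  rw [Finset.mem_erase, Finset.mem_insert, List.mem_toFinset, List.mem_map] at hx
  rw [Finset.mem_erase, Finset.mem_insert, List.mem_toFinset, List.mem_map]
  refine ⟨hx.1, Or.inr ?_⟩
  rcases hx.2 with h1 | ⟨e, he, h1⟩
  · exact ⟨d, List.mem_append_right _ List.mem_cons_self, h1.symm⟩
  · exact ⟨e, List.mem_append_right _ (List.mem_cons_of_mem _ he), h1⟩

theorem p_TRR : Stmt_TRR := by
  intro D _ T n L R hw hRL c γ ρ hC
  have hγρ : ∀ v, c v ≠ none → ((γ v).map ρ).prod = 1 := by
    intro v hv
    obtain ⟨u, hu⟩ := Option.ne_none_iff_exists'.1 hv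
    refine TRA_one ρ _ fun d hd => hC.one d ?_
    rw [(hC.mem v u hu d hd).1, (hC.mem v u hu d hd).2]
  have hrlen : ∀ l : List D, (T.rev l).length = l.length := by
    intro l
    unfold Triangulation.rev
    rw [List.length_reverse, List.length_map]
  -- walks with ends in one cluster
  have hclosed : ∀ (l : List D) (v u : T.Vertex), T.IsWalk l v u → l.length ≤ R → c v ≠ none →
      c u = c v → (l.map ρ).prod = 1 := by
    intro l v u hl hlen hv hc
    obtain ⟨a, ha⟩ := Option.ne_none_iff_exists'.1 hv
    have ha' : c u = some a := hc.trans ha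
    have h1 : T.IsWalk (l ++ (γ u ++ T.rev (γ v))) v v := by
      refine walk_append T hl (walk_append T (hC.walk u a ha') ?_)
      exact walk_rev T (hC.walk v a ha)
    have h2 : (l ++ (γ u ++ T.rev (γ v))).length < n := by
      rw [List.length_append, List.length_append, hrlen]
      have h3 := hC.len u a ha'
      have h4 := hC.len v a ha
      omega
    have h3 := short_closed T hw h1 h2 hC.flat
    rw [List.map_append, List.map_append, List.prod_append, List.prod_append,
      hγρ u (by rw [ha']; simp), prod_rev T hC.flat, hγρ v hv] at h3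
    simpa using h3
  -- the induction
  have key : ∀ (k : ℕ) (l : List D) (v w : T.Vertex), l.length = k → T.IsWalk l v w →
      l.length ≤ R → |((l.map ρ).prod).t| ≤ 8 * (ncn T c v l : ℤ) ∧
      (c v ≠ none → |((l.map ρ).prod).t| + 4 ≤ 8 * (ncn T c v l : ℤ)) := by
    intro k
    induction k using Nat.strong_induction_on with
    | _ k ih =>
      intro l v w hk hl hlen
      by_cases hv : c v = none
      · refine ⟨?_, fun h => absurd hv h⟩
        cases l with
        | nil =>
          have h3 : ((([] : List D).map ρ).prod).t = 0 := rfl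
          rw [h3, abs_zero]
          positivity
        | cons d l' =>
          obtain ⟨hd, hl'⟩ := hl
          rw [List.length_cons] at hk hlen
          obtain ⟨i1, i2⟩ := ih l'.length (by omega) l' (T.tgt d) w rfl hl' (by omega)
          have h1 : (ncn T c (T.tgt d) l' : ℤ) ≤ (ncn T c v (d :: l') : ℤ) := by
            exact_mod_cast TRR_ncn T c v d [] l'
          by_cases hd' : c (T.tgt d) = none
          · have h2 : ρ d = 1 := hC.one d (by rw [hd, hv, hd'])
            rw [List.map_cons, List.prod_cons, h2, one_mul]
            linarith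
          · have h2 := TRR_mul T ρ hC.t4 d l'
            have h3 := i2 hd'
            linarith
      · have h2nd : |((l.map ρ).prod).t| + 4 ≤ 8 * (ncn T c v l : ℤ) := by
          obtain ⟨l1, l2, u, hl12, hl1, hl2, hcu, hne⟩ := TRR_split' T c l v w hl
          have hlen12 : l.length = l1.length + l2.length := by rw [hl12, List.length_append]
          have h1 : (l1.map ρ).prod = 1 := hclosed l1 v u hl1 (by omega) hv hcu
          have hprod : (l.map ρ).prod = (l2.map ρ).prod := by
            rw [hl12, List.map_append, List.prod_append, h1, one_mul]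
          rw [hprod]
          cases l2 with
          | nil =>
            have h2 : 1 ≤ ncn T c v l := by
              unfold ncn
              exact Finset.card_pos.2 ⟨c v, Finset.mem_erase.2 ⟨hv, Finset.mem_insert_self _ _⟩⟩
            have h3 : ((([] : List D).map ρ).prod).t = 0 := rfl
            rw [h3, abs_zero]
            have h4 : (1 : ℤ) ≤ (ncn T c v l : ℤ) := by exact_mod_cast h2
            linarith
          | cons d l3 =>
            obtain ⟨-, hl3⟩ := hl2
            have hlen3 : l.length = l1.length + (l3.length + 1) := by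
              rw [hlen12, List.length_cons]
            have h2 := (ih l3.length (by omega) l3 (T.tgt d) w rfl hl3 (by omega)).1
            have h3 : ncn T c (T.tgt d) l3 + 1 ≤ ncn T c v l := by
              unfold ncn
              rw [← Finset.card_insert_of_notMem (a := c v)]
              · refine Finset.card_le_card ?_
                intro x hx
                rw [Finset.mem_insert, Finset.mem_erase, Finset.mem_insert, List.mem_toFinset,
                  List.mem_map] at hx
                rw [Finset.mem_erase, Finset.mem_insert, List.mem_toFinset, List.mem_map]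
                rcases hx with hx | ⟨hx0, hx | ⟨e, he, hx⟩⟩
                · exact ⟨by rw [hx]; exact hv, Or.inl hx⟩
                · refine ⟨hx0, Or.inr ⟨d, ?_, hx.symm⟩⟩
                  rw [hl12]
                  exact List.mem_append_right _ List.mem_cons_self
                · refine ⟨hx0, Or.inr ⟨e, ?_, hx⟩⟩
                  rw [hl12]
                  exact List.mem_append_right _ (List.mem_cons_of_mem _ he)
              · rw [Finset.mem_erase, Finset.mem_insert, List.mem_toFinset, List.mem_map]
                rintro ⟨-, h4 | ⟨e, he, h4⟩⟩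
                · exact hne d List.mem_cons_self h4.symm
                · exact hne e (List.mem_cons_of_mem _ he) h4
            have h5 := TRR_mul T ρ hC.t4 d l3
            have h6 : ((ncn T c (T.tgt d) l3 : ℤ)) + 1 ≤ (ncn T c v l : ℤ) := by exact_mod_cast h3
            linarith
        exact ⟨by linarith, fun _ => h2nd⟩
  intro l v w hl hlen
  exact key _ l v w rfl hl hlen

end ESub
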