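import Pool.Agent.Work.MP_a2fb93_gn.Interface
set_option autoImplicit false

/-! Block WNR (helper37): the clusters around the vertices of N. -/

namespace ESub

open Finset Classical

theorem WNR_ne {D : Type} (T : Triangulation D) (N : Set T.Vertex) (L n : ℕ)
    (δ ord : T.Vertex → ℕ) (hord : ∀ u ∈ N, ord u ≤ n) (hinj : Set.InjOn ord N)
    (u u' v : T.Vertex) (hu : u ∈ N) (hu' : u' ∈ N)
    (h : score T L n δ ord u v = score T L n δ ord u' v) : u = u' := by
  unfold score at h
  apply hinj hu hu'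
  have h1 := hord u hu
  have h2 := hord u' hu'
  have h3 : ((n : ℤ) + 1) * (((δ u : ℤ) - (T.td L u v : ℤ)) - ((δ u' : ℤ) - (T.td L u' v : ℤ))) =
      (ord u' : ℤ) - ord u := by linarith
  have h4 : ((n : ℤ) + 1) ∣ (ord u' : ℤ) - ord u := ⟨_, h3.symm⟩
  have h5 : (ord u' : ℤ) - ord u = 0 := by
    apply Int.eq_zero_of_abs_lt_dvd h4
    rw [abs_lt]
    constructor <;> omega
  omega

theorem WNR_shift {D : Type} (T : Triangulation D) (L n : ℕ) (δ ord : T.Vertex → ℕ)
    (u v v' : T.Vertex) (h : T.td L u v ≤ T.td L u v' + 1) :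
    score T L n δ ord u v' ≤ score T L n δ ord u v + ((n : ℤ) + 1) := by
  unfold score
  have h' : (T.td L u v : ℤ) ≤ (T.td L u v' : ℤ) + 1 := by exact_mod_cast h
  have hn : (0 : ℤ) ≤ (n : ℤ) + 1 := by positivity
  have := mul_le_mul_of_nonneg_left h' hn
  linarith

theorem WNR_eq {D : Type} (T : Triangulation D) (L n : ℕ) (δ ord : T.Vertex → ℕ)
    (u v v' : T.Vertex) (h : T.td L u v = T.td L u v' + 1) :
    score T L n δ ord u v' = score T L n δ ord u v + ((n : ℤ) + 1) := by
  unfold score
  rw [h]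
  push_cast
  ring

/-- u is the winner at v -/
def WNR_P {D : Type} (T : Triangulation D) (N : Set T.Vertex) (L n : ℕ)
    (δ ord : T.Vertex → ℕ) (v u : T.Vertex) : Prop :=
  u ∈ N ∧ T.td L u v ≤ δ u ∧
    ∀ u' ∈ N, u' ≠ u → score T L n δ ord u' v < score T L n δ ord u v

theorem WNR_uniq {D : Type} (T : Triangulation D) (N : Set T.Vertex) (L n : ℕ)
    (δ ord : T.Vertex → ℕ) (v u u' : T.Vertex) (h : WNR_P T N L n δ ord v u)
    (h' : WNR_P T N L n δ ord v u') : u = u' := by
  by_contra hne
  have h1 := h.2.2 u' h'.1 (fun e => hne e.symm)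
  have h2 := h'.2.2 u h.1 hne
  exact absurd h1 (not_lt.2 h2.le)

theorem WNR_ex {D : Type} [Finite D] (T : Triangulation D) (N : Set T.Vertex) (L n : ℕ)
    (δ ord : T.Vertex → ℕ) (hord : ∀ u ∈ N, ord u ≤ n)
    (hinj : Set.InjOn ord N) (v u : T.Vertex) (hu : u ∈ N) (hd : T.td L u v ≤ δ u) :
    ∃ w, WNR_P T N L n δ ord v w := by
  have hfin : Finite T.Vertex := finite_vertex T
  have hne : Nonempty N := ⟨⟨u, hu⟩⟩
  obtain ⟨w, hw⟩ := Finite.exists_max (fun x : N => score T L n δ ord x.1 v)
  refine ⟨w.1, w.2, ?_, ?_⟩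
  · by_contra hcon
    have h1 : δ w.1 + 1 ≤ T.td L w.1 v := by omega
    have h2 := hw ⟨u, hu⟩
    simp only at h2
    unfold score at h2
    have h4 : (ord w.1 : ℤ) ≤ n := by exact_mod_cast hord w.1 w.2
    have h5 : (δ w.1 : ℤ) - (T.td L w.1 v : ℤ) ≤ -1 := by
      have : (δ w.1 : ℤ) + 1 ≤ (T.td L w.1 v : ℤ) := by exact_mod_cast h1
      linarith
    have h6 : ((n : ℤ) + 1) * ((δ w.1 : ℤ) - (T.td L w.1 v : ℤ)) ≤ ((n : ℤ) + 1) * (-1) :=
      mul_le_mul_of_nonneg_left h5 (by positivity)
    have h7 : (0 : ℤ) ≤ ((n : ℤ) + 1) * ((δ u : ℤ) - (T.td L u v : ℤ)) := by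
      apply mul_nonneg (by positivity)
      have : (T.td L u v : ℤ) ≤ (δ u : ℤ) := by exact_mod_cast hd
      linarith
    have h8 : (0 : ℤ) ≤ (ord u : ℤ) := by positivity
    linarith
  · intro u' hu' hne'
    exact lt_of_le_of_ne (hw ⟨u', hu'⟩)
      (fun h => hne' (WNR_ne T N L n δ ord hord hinj _ _ _ hu' w.2 h))

theorem p_WNR : Stmt_WNR := by
  intro D _ T N L n δ ord hδ hord hinj
  obtain ⟨-, t2, t3, -, t5, t6, -⟩ := p_TDF p_VTX D T L
  obtain ⟨c, hc⟩ : ∃ c : T.Vertex → Option T.Vertex,
      ∀ v u, c v = some u ↔ WNR_P T N L n δ ord v u := by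
    refine ⟨fun v => if h : ∃ u, WNR_P T N L n δ ord v u then some h.choose else none, ?_⟩
    intro v u
    beta_reduce
    by_cases h : ∃ u, WNR_P T N L n δ ord v u
    · rw [dif_pos h, Option.some.injEq]
      constructor
      · intro e
        rw [← e]
        exact h.choose_spec
      · intro e
        exact WNR_uniq T N L n δ ord v _ _ h.choose_spec e
    · rw [dif_neg h]
      constructor
      · intro e
        exact absurd e (by simp)
      · intro e
        exact absurd ⟨u, e⟩ h
  have hnone : ∀ v, c v = none → v ∉ N := by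
    intro v hv hvN
    obtain ⟨w, hw⟩ := WNR_ex T N L n δ ord hord hinj v v hvN (by rw [t2 v]; exact Nat.zero_le _)
    rw [(hc v w).2 hw] at hv
    exact absurd hv (by simp)
  have key : ∀ k : ℕ, ∀ v u, c v = some u → T.td L u v = k → ∃ l : List D, T.IsWalk l v u ∧
      l.length ≤ k ∧ ∀ d ∈ l, c (T.org d) = some u ∧ c (T.tgt d) = some u := by
    intro k
    induction k with
    | zero =>
      intro v u _ hv
      have := t5 u v hv
      refine ⟨[], this.symm, le_refl _, ?_⟩
      intro d hd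
      simp at hd
    | succ k ih =>
      intro v u hcv hv
      have hP := (hc v u).1 hcv
      have hL := hδ u hP.1
      have hk : k + 1 ≤ L := by
        have := hP.2.1
        omega
      obtain ⟨d, hd, hdk⟩ := t6 u v k hv hk
      have hcd : c (T.tgt d) = some u := by
        rw [hc]
        refine ⟨hP.1, ?_, ?_⟩
        · have := hP.2.1
          omega
        · intro u' hu' hne
          have s2 := hP.2.2 u' hu' hne
          have s3 := WNR_eq T L n δ ord u v (T.tgt d) (by rw [hv, hdk])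
          have s4 := WNR_shift T L n δ ord u' v (T.tgt d) (by
            have := t3 u' d
            rw [hd] at this
            exact this)
          linarith
      obtain ⟨l, hl, hlen, hall⟩ := ih (T.tgt d) u hcd hdk
      refine ⟨d :: l, ⟨hd, hl⟩, ?_, ?_⟩
      · rw [List.length_cons]
        omega
      · intro e he
        rw [List.mem_cons] at he
        rcases he with rfl | he
        · exact ⟨by rw [hd]; exact hcv, hcd⟩
        · exact hall e he
  have hγ : ∀ v, ∃ l : List D, ∀ u, c v = some u → T.IsWalk l v u ∧ l.length ≤ L ∧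
      ∀ d ∈ l, c (T.org d) = some u ∧ c (T.tgt d) = some u := by
    intro v
    cases hcv : c v with
    | none =>
      refine ⟨[], ?_⟩
      intro u hu
      exact absurd hu (by simp)
    | some w =>
      obtain ⟨l, hl, hlen, hall⟩ := key _ v w hcv rfl
      refine ⟨l, ?_⟩
      intro u hu
      have hwu : w = u := by
        simpa using hu
      subst hwu
      have hP := (hc v w).1 hcv
      exact ⟨hl, hlen.trans (hP.2.1.trans (hδ w hP.1)), hall⟩
  choose γ hγ' using hγ
  exact ⟨c, γ, hnone, fun v u h => (hc v u).1 h, hγ'⟩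

end ESub
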