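import Pool.Agent.Work.MP_a2fb93_gn.FIN
import Pool.Agent.Work.MP_a2fb93_gn.B_BFS
import Pool.Agent.Work.MP_a2fb93_gn.B_FAC
import Pool.Agent.Work.MP_a2fb93_gn.B_DCN
import Pool.Agent.Work.MP_a2fb93_gn.B_DBF
import Pool.Agent.Work.MP_a2fb93_gn.B_CTX
import Pool.Agent.Work.MP_a2fb93_gn.B_FOR
import Pool.Agent.Work.MP_a2fb93_gn.B_DSC
import Pool.Agent.Work.MP_a2fb93_gn.B_LCN
import Pool.Agent.Work.MP_a2fb93_gn.B_GPH
import Pool.Agent.Work.MP_a2fb93_gn.B_WNR
import Pool.Agent.Work.MP_a2fb93_gn.B_GAR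
import Pool.Agent.Work.MP_a2fb93_gn.B_TRR
import Pool.Agent.Work.MP_a2fb93_gn.B_TBR
import Pool.Agent.Work.MP_a2fb93_gn.B_NMR
import Pool.Agent.Work.MP_a2fb93_gn.B_PKR
import Pool.Agent.Work.MP_a2fb93_ev.B_CONN
import Pool.Agent.Work.MP_a2fb93_ev.B_REACH
import Pool.Agent.Work.MP_a2fb93_ev.B_TUT
import Pool.Agent.Work.MP_a2fb93_ev.B_FL
import Pool.Agent.Work.MP_a2fb93_ev.B_LIFT
import Pool.Agent.Work.MP_a2fb93_ev.B_POT
import Pool.Agent.Work.MP_a2fb93_ev.B_COL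
set_option autoImplicit false

/-!
All blocks together.
-/

namespace ESub

theorem all_gnr : Stmt_GNR :=
  gnr (p_CONN p_VTX) (p_LIFT (p_FL (p_TUT p_REACH))) p_POT (p_COL p_VTX) p_WNR p_GAR
    (p_TBR p_TRR) (p_PKR p_NMR)

/-- even triangulations of genus at most g with face-width at least K (log g + 1) -/
theorem even_genus : ∃ K : ℕ, ∀ (D : Type) [Finite D] (T : Triangulation D), T.EvenDegrees →
    T.Connected → ∀ g : ℕ, T.GenusAtMost g →
      T.FaceWidthAtLeast (K * (Nat.log 2 (g + 1) + 1)) → T.DualThreeEdgeColourable :=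
  gen all_gnr p_BFS (p_DBF p_FAC p_DCN) (p_CTX p_FAC) (p_DSC p_FAC p_FOR) p_LCN

/-- the general form, with a set N of vertices such that closed walks off N are contractible -/
theorem even_set : Stmt_SET := set_of_gnr all_gnr p_GPH

end ESub
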