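import Pool.Agent.Work.MP_a2fb93_ev.Interface
set_option autoImplicit false

/-!
Even triangulations, the version with the genus: connected triangulations, Euler's formula, sets of
vertices whose complement carries no holonomy, breadth first trees and cotrees.
-/

namespace ESub

open Finset Classical

namespace Triangulation

variable {D : Type}

/-- any two vertices are joined by a walk -/
def Connected (T : Triangulation D) : Prop := ∀ v w : T.Vertex, ∃ n, T.Near n v w

/-- The genus is at most g: with V vertices, E edges (pairs of darts) and F faces (triples of darts)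
2 - 2g ≤ V - E + F, multiplied by 6. -/
def GenusAtMost (T : Triangulation D) (g : ℕ) : Prop :=
  Nat.card D + 12 ≤ 6 * Nat.card T.Vertex + 12 * g

/-- Closed walks which meet no vertex of N are contractible (their value is trivial for all flat
labels). -/
def ContractibleOff (T : Triangulation D) (N : Set T.Vertex) : Prop :=
  ∀ (l : List D) (v : T.Vertex), T.IsWalk l v v → v ∉ N → (∀ d ∈ l, T.tgt d ∉ N) →
    ∀ (G : Type) [Group G] (g : D → G), IsFlat T g → (l.map g).prod = 1

/-- every flat label is trivial off N, up to a change of frames -/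
def FlatOff (T : Triangulation D) (N : Set T.Vertex) : Prop :=
  ∀ (G : Type) [Group G] (h : D → G), IsFlat T h → ∃ φ : T.Vertex → G, ∀ d,
    T.org d ∉ N → T.tgt d ∉ N → h d = (φ (T.org d))⁻¹ * φ (T.tgt d)

/-- a face of T is an orbit of next -/
def Face (T : Triangulation D) : Type := Quot (fun d e : D => e = T.next d)

/-- the face on the left of d -/
def fc (T : Triangulation D) (d : D) : T.Face := Quot.mk _ d

end Triangulation

/-- A breadth first tree of T with root v0: dep v is the distance of v and v0, π v is a dart from v to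
its parent. -/
structure Bfs {D : Type} (T : Triangulation D) where
  v0 : T.Vertex
  dep : T.Vertex → ℕ
  π : T.Vertex → D
  root : ∀ v, dep v = 0 ↔ v = v0
  org_π : ∀ v, v ≠ v0 → T.org (π v) = v
  dep_π : ∀ v, v ≠ v0 → dep (T.tgt (π v)) + 1 = dep v
  lip : ∀ d, dep (T.tgt d) ≤ dep (T.org d) + 1

/-- the darts of the tree -/
def Bfs.Tree {D : Type} {T : Triangulation D} (B : Bfs T) (d : D) : Prop :=
  ∃ v, v ≠ B.v0 ∧ (d = B.π v ∨ d = T.inv (B.π v))

/-- the parent of a vertex -/
noncomputable def Bfs.par {D : Type} {T : Triangulation D} (B : Bfs T) (v : T.Vertex) : T.Vertex :=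
  if v = B.v0 then B.v0 else T.tgt (B.π v)

/-- A rooted spanning tree of the graph of the faces; it does not cross the edges of the tree B. -/
structure Cot {D : Type} {T : Triangulation D} (B : Bfs T) where
  f0 : T.Face
  dp : T.Face → ℕ
  κ : T.Face → D
  fc_κ : ∀ f, f ≠ f0 → T.fc (κ f) = f
  tree_κ : ∀ f, f ≠ f0 → ¬ B.Tree (κ f)
  dp_κ : ∀ f, f ≠ f0 → dp (T.fc (T.inv (κ f))) < dp f

/-- the darts crossed by the cotree -/
def Cot.Ctr {D : Type} {T : Triangulation D} {B : Bfs T} (C : Cot B) (d : D) : Prop :=
  ∃ f, f ≠ C.f0 ∧ (d = C.κ f ∨ d = T.inv (C.κ f))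

/-- the other darts: 4 g of them on a surface of genus g -/
def Cot.X {D : Type} {T : Triangulation D} {B : Bfs T} (C : Cot B) : Set D :=
  {d | ¬ B.Tree d ∧ ¬ C.Ctr d}

/-- the vertices of the cut graph: the vertices on the paths of the tree from the origins of the
darts in X to the root -/
def Cot.CG {D : Type} {T : Triangulation D} {B : Bfs T} (C : Cot B) : Set T.Vertex :=
  {v | ∃ d ∈ C.X, ∃ n : ℕ, B.par^[n] (T.org d) = v}

/-- the number of the centres (values some u of c) met by the walk l from v -/
noncomputable def ncn {D : Type} (T : Triangulation D) (c : T.Vertex → Option T.Vertex)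
    (v : T.Vertex) (l : List D) : ℕ :=
  ((insert (c v) ((l.map (fun d => c (T.tgt d))).toFinset)).erase none).card

end ESub
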