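import Pool.Agent.Work.MP_a2fb93_gn.Defs
import Pool.Agent.Work.MP_a2fb93_ev.B_VTX
import Pool.Agent.Work.MP_a2fb93_ev.B_HOL
import Pool.Agent.Work.MP_a2fb93_ev.B_TDF
set_option autoImplicit false

/-!
Interface of the proof for even triangulations with face-width at least K (log g + 1)
(MP_a2fb93_co, helper52). All statements are true as stated; the hints are complete proofs.

FACTS TO CITE (finished files of helper35's project `Work/MP_a2fb93_ev`): `ESub.p_VTX : Stmt_VTX`
(vertices and walks), `ESub.p_HOL p_VTX : Stmt_HOL` (short closed walks are contractible),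
`ESub.p_TDF p_VTX : Stmt_TDF` (truncated distance), `ESub.p_CNT : Stmt_CNT`, `ESub.p_LLS : Stmt_LLS`,
`ESub.p_HIGH : Stmt_HIGH` (import the file B_CNT, B_LLS, B_HIGH).
The most important facts are unpacked below (`org_rot`, `org_next`, `walk_append`, ...).
`T.rot d = T.inv (T.next (T.next d))`, so `next (inv (rot d)) = d`: `T.next (T.inv d)` is the dart before `d`
in the rotation around the origin of `d`.

THEOREM. There is an absolute K such that every even triangulation of a closed orientable surface of
genus g with face-width at least K (log_2 (g + 1) + 1) has a 3-edge-colourable dual.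
General form: N a set of vertices such that closed walks off N are contractible and at most 2^(r/K)
vertices of N lie in each ball of radius r; face-width at least r ≥ K.
-/

namespace ESub

open Finset Classical

/-! ### Facts of the project MP_a2fb93_ev, unpacked -/

section facts
variable {D : Type} [Finite D] (T : Triangulation D)

theorem finite_vertex : Finite T.Vertex := (p_VTX D T).1

theorem exists_org (v : T.Vertex) : ∃ d, T.org d = v := (p_VTX D T).2.1 v

theorem org_eq_iff (d e : D) : T.org d = T.org e ↔ T.SameOrigin d e := (p_VTX D T).2.2.1 d e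

theorem org_rot (d : D) : T.org (T.rot d) = T.org d := (p_VTX D T).2.2.2.1 d

theorem org_next (d : D) : T.org (T.next d) = T.tgt d := (p_VTX D T).2.2.2.2.1 d

theorem tgt_next_next (d : D) : T.tgt (T.next (T.next d)) = T.org d := (p_VTX D T).2.2.2.2.2.1 d

theorem tgt_inv (d : D) : T.tgt (T.inv d) = T.org d := (p_VTX D T).2.2.2.2.2.2.1 d

theorem org_inv (d : D) : T.org (T.inv d) = T.tgt d := rfl

theorem walk_append {l l' : List D} {u v w : T.Vertex} (h : T.IsWalk l u v)
    (h' : T.IsWalk l' v w) : T.IsWalk (l ++ l') u w := (p_VTX D T).2.2.2.2.2.2.2.1 l l' u v w h h'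

theorem walk_rev {l : List D} {u v : T.Vertex} (h : T.IsWalk l u v) : T.IsWalk (T.rev l) v u :=
  (p_VTX D T).2.2.2.2.2.2.2.2.1 l u v h

theorem walk_split {l l' : List D} {u w : T.Vertex} (h : T.IsWalk (l ++ l') u w) :
    ∃ v, T.IsWalk l u v ∧ T.IsWalk l' v w := (p_VTX D T).2.2.2.2.2.2.2.2.2.1 l l' u w h

theorem near_iff (n : ℕ) (v w : T.Vertex) :
    T.Near n v w ↔ ∃ l : List D, l.length ≤ n ∧ T.IsWalk l v w :=
  (p_VTX D T).2.2.2.2.2.2.2.2.2.2.1 n v w

theorem prod_rev {G : Type} [Group G] {g : D → G} (hg : IsFlat T g) (l : List D) :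
    ((T.rev l).map g).prod = ((l.map g).prod)⁻¹ := (p_VTX D T).2.2.2.2.2.2.2.2.2.2.2 G g hg l

/-- short closed walks are contractible -/
theorem short_closed {n : ℕ} (hn : T.FaceWidthAtLeast n) {l : List D} {v : T.Vertex}
    (hl : T.IsWalk l v v) (h : l.length < n) {G : Type} [Group G] {g : D → G} (hg : IsFlat T g) :
    (l.map g).prod = 1 := p_HOL p_VTX D T n hn l v hl h G g hg

end facts

/-! ### Part A: the cut graph -/

/-- BFS (120 lines, uses nothing). A breadth first tree.
PROOF. v0 any vertex (D is not empty), dep v = least n with Near n v v0 (Connected). dep v = 0 iff v = v0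
(Near 0 is equality). For v ≠ v0, dep v = n + 1: Near (n + 1) v v0 and not Near n v v0, so by the
definition of Near there is d with org d = v, Near n (tgt d) v0; choose π v = d; dep (tgt d) ≤ n, and
dep v ≤ dep (tgt d) + 1. lip: Near n (org d) v0 implies Near (n + 1) (tgt d) v0 (the dart inv d, tgt_inv). -/
def Stmt_BFS : Prop :=
  ∀ (D : Type) [Finite D] [Nonempty D] (T : Triangulation D), T.Connected → Nonempty (Bfs T)

/-- FAC (90 lines, uses nothing). Faces.
PROOF. next has order 3, so the classes are {d, next d, next (next d)} (Quot.eq, EqvGen; or lift a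
function to Set D). They have three elements: next d ≠ d, and next (next d) = d would give
next d = next (next (next d)) = d, and next (next d) = next d gives next d = d (next is injective).
card D = sum over the faces of the number of the darts of the face = 3 card Face. -/
def Stmt_FAC : Prop :=
  ∀ (D : Type) [Finite D] (T : Triangulation D),
    Finite T.Face ∧ (∀ f : T.Face, ∃ d, T.fc d = f) ∧ (∀ d, T.fc (T.next d) = T.fc d) ∧
    (∀ d e, T.fc d = T.fc e ↔ e = d ∨ e = T.next d ∨ e = T.next (T.next d)) ∧
    Nat.card D = 3 * Nat.card T.Face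

/-- DCN (150 lines, uses nothing). The complement of a tree is connected.
PROOF. (1) CLAIM: a (inv (π v)) ↔ a (π v) for all v ≠ v0. Induction, the vertices with the greatest depth
first (dep is bounded, V is finite). Let e be a dart with org e = v, e ≠ π v. Then (*) a (inv e) ↔ a e: if e is
not in the tree this is the hypothesis; e = π w gives w = org e = v; if e = inv (π w) then v = tgt (π w),
dep w = dep v + 1 and the claim for w applies. By the invariance under next,
a (next (inv e)) ↔ a (inv e) ↔ a e, and next (inv e) is the dart before e in the rotation. Let e0 = π v and let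
k > 0 be minimal with rot^[k] e0 = e0 (rot is injective, D finite). For 0 < i < k the dart rot^[i] e0 is
not e0, so a (rot^[i] e0) ↔ a (rot^[i-1] e0); so a (rot^[k-1] e0) ↔ a e0, and rot^[k-1] e0 = next (inv e0),
so a (inv e0) ↔ a (next (inv e0)) ↔ a e0. (2) So a (inv d) ↔ a d for all d, and a (rot d) ↔ a d, so a depends
only on the origin (org_eq_iff), and it has the same value at org d and tgt d = org (inv d). Connected. -/
def Stmt_DCN : Prop :=
  ∀ (D : Type) [Finite D] (T : Triangulation D), T.Connected → ∀ (B : Bfs T) (a : D → Prop),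
    (∀ d, a (T.next d) ↔ a d) → (∀ d, ¬ B.Tree d → (a (T.inv d) ↔ a d)) → ∀ d e, a d ↔ a e

/-- DBF (180 lines, uses FAC DCN). A cotree.
PROOF. f0 = the face of any dart. S n (a set of faces): S 0 = {f0}, S (n + 1) = S n and all faces f with
a dart d, fc d = f, not in the tree, fc (inv d) ∈ S n. The set of the darts d whose face is in some S n is
invariant under next and under inv outside the tree (Tree (inv d) ↔ Tree d), so by DCN it is everything.
dp f = least n with f ∈ S n; if f ≠ f0 then dp f = n + 1 and f is in S (n + 1), not in S n: choose κ f. -/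
def Stmt_DBF : Prop :=
  ∀ (D : Type) [Finite D] [Nonempty D] (T : Triangulation D), T.Connected → ∀ B : Bfs T,
    Nonempty (Cot B)

/-- CTX (180 lines, uses FAC). Counting.
PROOF. The darts of the tree: the map (v, b) ↦ π v or inv (π v), v ≠ v0, b : Bool, is injective: π v = π w
gives v = w (org_π); π v = inv (π w) gives v = org (inv (π w)) = tgt (π w) and, symmetrically, w = tgt (π v), so
dep v < dep w < dep v. So there are 2 (V - 1) of them. In the same way 2 (F - 1) darts satisfy Ctr: κ f = κ f'
gives f = f'; κ f = inv (κ f') gives f = fc (inv (κ f')), f' = fc (inv (κ f)), dp f < dp f' < dp f. No dart is in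
both (tree_κ; Tree (inv d) ↔ Tree d). So X has D - 2 (V - 1) - 2 (F - 1) = F + 4 - 2 V elements, D = 3 F (FAC),
so 3 X = D + 12 - 6 V ≤ 12 g. -/
def Stmt_CTX : Prop :=
  ∀ (D : Type) [Finite D] (T : Triangulation D) (B : Bfs T) (C : Cot B) (g : ℕ),
    T.GenusAtMost g → Nat.card C.X ≤ 4 * g

/-- FOR (40 lines, uses nothing). Frames along a forest.
PROOF. Well founded recursion on dep (WellFounded.fix, measure), or: for every n there is ψ with the
property for all s with dep s < n. -/
def Stmt_FOR : Prop :=
  ∀ (S G : Type) [Group G] (dep : S → ℕ) (par : S → S) (lab : S → G) (s0 : S),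
    (∀ s, s ≠ s0 → dep (par s) < dep s) →
    ∃ ψ : S → G, ∀ s, s ≠ s0 → ψ s = ψ (par s) * lab s

/-- DSC (220 lines, uses FAC FOR). No holonomy off the cut graph.
PROOF. Let h be flat. (1) Let θ : D → G be some function with θ (next d) = θ d * h d (on every face choose a
dart b, FAC; θ b = 1, θ (next b) = h b, θ (next (next b)) = h b * h (next b); flatness closes the circle). All
other such functions are d ↦ ψ (fc d) * θ d, ψ : Face → G. (2) Let τ d = ψ (fc d) * θ d. For a dart d consider
the condition J d: τ (inv d) = τ d * h d. J (inv d) is equivalent to J d (h (inv d) = (h d)⁻¹), and since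
τ (next (inv d)) = τ (inv d) * h (inv d) = τ (inv d) * (h d)⁻¹, J d says τ (next (inv d)) = τ d. (3) By FOR (S = faces,
par f = fc (inv (κ f)), dep = dp, s0 = f0, lab f = θ (inv (κ f)) * (h (κ f))⁻¹ * (θ (κ f))⁻¹) there is ψ such
that J (κ f) holds for all f ≠ f0: ψ f * θ (κ f) * h (κ f) = ψ (par f) * θ (inv (κ f)). (4) CLAIM: J (π v) for every
v ≠ v0 not in CG. Induction, the vertices with the greatest depth first. Let e be a dart with org e = v,
e ≠ π v. Then J e: if e is in the tree, e = inv (π w), v = tgt (π w) = par w, dep w > dep v, w is not in CG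
(otherwise v would be, as v = par w), so J (π w) and J e; if Ctr e: (3); otherwise e ∈ X and v = org e ∈ CG
(n = 0), a contradiction. So τ is the same at e and at the dart next (inv e) before e in the rotation; as in
DCN (1) τ (next (inv (π v))) = τ (π v), which is J (π v). (5) So J e for ALL darts e with org e not in CG (for
org e = v0 not in CG: e is not π of something, the same three cases). So τ is constant on the darts at a
vertex v which is not in CG (invariant under rot, org_eq_iff): φ v = this value. For d with org d, tgt d not in CG: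
φ (tgt d) = τ (next d) (org_next) = τ d * h d = φ (org d) * h d. -/
def Stmt_DSC : Prop :=
  ∀ (D : Type) [Finite D] (T : Triangulation D) (B : Bfs T) (C : Cot B), T.FlatOff C.CG

/-- LCN (130 lines, uses nothing). Few vertices of the cut graph in a ball.
PROOF. For w ∈ CG choose d ∈ X and n with par^[n] (org d) = w. Near r v w gives |dep w - dep v| ≤ r (lip for d
and inv d; near_iff and induction on the walk). The map w ↦ (d, dep w + r - dep v ∈ {0, .., 2 r}) is
injective: dep (par^[n] q) = dep q - n (natural subtraction), so if par^[n] q and par^[n'] q have the same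
depth then n = n' or both have depth 0 and are v0. -/
def Stmt_LCN : Prop :=
  ∀ (D : Type) [Finite D] (T : Triangulation D) (B : Bfs T) (C : Cot B) (r : ℕ) (v : T.Vertex),
    Nat.card {w : T.Vertex // w ∈ C.CG ∧ T.Near r v w} ≤ Nat.card C.X * (2 * r + 1)

/-- GPH (90 lines, uses nothing). From closed walks to frames.
PROOF. Call v, w ∉ N equivalent if there is a walk from v to w off N (v ∉ N, all tgt d ∉ N). Choose a
representative of each class (Quotient.out or Classical.choose) and for v ∉ N a walk l v off N from the
representative to v; φ v = product of h along l v. For a dart d off N the walk l (org d) ++ [d] ++ rev (l (tgt d)) is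
closed and off N (the vertices of a reversed walk are the same), so its product is 1 (prod_rev). -/
def Stmt_GPH : Prop :=
  ∀ (D : Type) [Finite D] (T : Triangulation D) (N : Set T.Vertex), T.ContractibleOff N →
    T.FlatOff N

/-! ### Part B: clusters around the vertices of N -/

/-- WNR (130 lines, uses nothing). The clusters. Compare `ev/B_WIN.lean`, `ev/B_CLUS.lean`.
PROOF. For each v: if some u ∈ N has td L u v ≤ δ u, let c v = some u for the u ∈ N with the greatest score
at v (unique: the scores of different u ∈ N are different modulo n + 1, see p_WIN); its score is at least the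
score of the u with td ≤ δ, which is ≥ 0, so td L (c v) v ≤ δ (otherwise the score would be
≤ - (n + 1) + n < 0). Otherwise c v = none; then v ∉ N since td L v v = 0. γ v by induction on
k = td L u v, c v = some u: k = 0: v = u, γ v = []; otherwise (k ≤ δ u ≤ L) take d with org d = v,
td L u (tgt d) = k - 1: the score of u at tgt d is by n + 1 greater than at v, the scores of the others by at
most n + 1, so c (tgt d) = some u; γ v = d :: γ (tgt d). -/
def Stmt_WNR : Prop :=
  ∀ (D : Type) [Finite D] (T : Triangulation D) (N : Set T.Vertex) (L n : ℕ)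
    (δ ord : T.Vertex → ℕ), (∀ u ∈ N, δ u ≤ L) → (∀ u ∈ N, ord u ≤ n) → Set.InjOn ord N →
    ∃ (c : T.Vertex → Option T.Vertex) (γ : T.Vertex → List D),
      (∀ v, c v = none → v ∉ N) ∧
      (∀ v u, c v = some u → u ∈ N ∧ T.td L u v ≤ δ u ∧
        ∀ u' ∈ N, u' ≠ u → score T L n δ ord u' v < score T L n δ ord u v) ∧
      ∀ v u, c v = some u → T.IsWalk (γ v) v u ∧ (γ v).length ≤ L ∧
        ∀ d ∈ γ v, c (T.org d) = some u ∧ c (T.tgt d) = some u

/-- GAR (80 lines, uses nothing). Frames. Compare `ev/B_GAUGE.lean`.
PROOF. φ of FlatOff for g. A v = product of g along γ v if c v = some u, A v = (φ v)⁻¹ if c v = none.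
g' d = (A (org d))⁻¹ * g d * A (tgt d), cl v = ((A v)⁻¹).act 2. If c (org d) = c (tgt d) = some u: closed walk
rev (γ (org d)) ++ [d] ++ γ (tgt d) at u of length at most 2 L + 1 < n. If both are none: g d = (φ (org d))⁻¹ *
φ (tgt d). -/
def Stmt_GAR : Prop :=
  ∀ (D : Type) [Finite D] (T : Triangulation D) (n L : ℕ), T.FaceWidthAtLeast n → 2 * L + 1 < n →
    ∀ (N : Set T.Vertex), T.FlatOff N →
    ∀ (c : T.Vertex → Option T.Vertex) (γ : T.Vertex → List D), (∀ v, c v = none → v ∉ N) →
      (∀ v u, c v = some u → T.IsWalk (γ v) v u ∧ (γ v).length ≤ L) →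
    ∀ g : D → Aff (ZMod 3), IsFlat T g → (∀ d, (g d).act 2 ≠ 2) →
      ∃ (g' : D → Aff (ZMod 3)) (cl : T.Vertex → ZMod 3), IsFlat T g' ∧
        (∀ d, (g' d).act (cl (T.tgt d)) ≠ cl (T.org d)) ∧
        (∀ d, c (T.org d) = c (T.tgt d) → g' d = 1)

/-- the clusters with centres, paths γ in the clusters, and a label ρ which is trivial inside of the
clusters and outside of all clusters -/
structure Clu {D : Type} (T : Triangulation D) (L : ℕ) (c : T.Vertex → Option T.Vertex)
    (γ : T.Vertex → List D) (ρ : D → Aff ℤ) : Prop where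
  walk : ∀ v u, c v = some u → T.IsWalk (γ v) v u
  len : ∀ v u, c v = some u → (γ v).length ≤ L
  mem : ∀ v u, c v = some u → ∀ d ∈ γ v, c (T.org d) = some u ∧ c (T.tgt d) = some u
  flat : IsFlat T ρ
  t4 : ∀ d, |(ρ d).t| ≤ 4
  one : ∀ d, c (T.org d) = c (T.tgt d) → ρ d = 1

/-- TRR (180 lines, uses nothing). Transport along short walks. Compare `ev/B_TRA.lean`.
PROOF. |(a * b).t| ≤ |a.t| + |b.t|. Induction on the length of l (for all v) of both statements.
If c v = none: l = [] is clear; l = d :: l', v = org d: if c (tgt d) = none then ρ d = 1 and ncn does not change;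
otherwise |t| ≤ 4 + |t of l'| ≤ 4 + (8 ncn - 4) by the second statement for l' (ncn is the same, `none` is
erased). If c v = some u: let l = l1 ++ l2 such that l1 leads from v to the last vertex x on the walk with
c x = some u. The closed walk rev (γ v) ++ l1 ++ γ x at u has length ≤ R + 2 L < n, its product is 1, and ρ = 1
on the darts of γ v and γ x (fields mem, one), so the product of ρ along l1 is 1. If l2 = [], t = 0 and ncn ≥ 1.
Otherwise l2 = d :: l3, the walk l3 from tgt d does not meet the cluster of u, so its ncn is at most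
ncn - 1 (c v = some u is missing), and |t| ≤ 4 + 8 (ncn - 1). -/
def Stmt_TRR : Prop :=
  ∀ (D : Type) [Finite D] (T : Triangulation D) (n L R : ℕ), T.FaceWidthAtLeast n →
    R + 2 * L < n → ∀ (c : T.Vertex → Option T.Vertex) (γ : T.Vertex → List D) (ρ : D → Aff ℤ),
    Clu T L c γ ρ → ∀ (l : List D) (v w : T.Vertex), T.IsWalk l v w → l.length ≤ R →
      |((l.map ρ).prod).t| ≤ 8 * (ncn T c v l : ℤ) ∧
      (c v ≠ none → |((l.map ρ).prod).t| + 4 ≤ 8 * (ncn T c v l : ℤ))

/-- TBR (200 lines, uses TRR). Transport along all walks. Compare `ev/B_TRB.lean`.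
PROOF. (1) A walk l of length ≤ R from v to w with c v = some a, c w = some b: the walk
l' = rev (γ v) ++ l ++ γ w leads from a to b, its length is at most R + 2 L, and its product is the product
of ρ along l. Near (R + 2 L) a b, so there is the walk l0 of the hypothesis; l' ++ rev l0 is closed of length
≤ 2 (R + 2 L) < n, so both have the same product, and |t| ≤ 8 k by TRR for l0 (with R + 2 L instead of R).
(2) Any walk of length ≤ R: |t| ≤ 8 k + 8: if all its vertices have c = none all ρ d = 1. Otherwise let x, y be
the first and the last vertex with c ≠ none; the darts before x except the one which ends in x have ρ = 1,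
the same after y; so |t| ≤ 4 + 8 k + 4. (3) 8 k + 8 ≤ R / 4. A longer walk is cut in pieces of length R:
induction on the length, see `ev/B_TRB.lean`. -/
def Stmt_TBR : Prop :=
  ∀ (D : Type) [Finite D] (T : Triangulation D) (n L R k : ℕ), 0 < R → T.FaceWidthAtLeast n →
    R + 4 * L < n → 2 * (R + 2 * L) < n → 32 * (k + 1) ≤ R →
    ∀ (c : T.Vertex → Option T.Vertex) (γ : T.Vertex → List D) (ρ : D → Aff ℤ), Clu T L c γ ρ →
    (∀ v w a b, c v = some a → c w = some b → T.Near (R + 2 * L) a b →
      ∃ l, T.IsWalk l a b ∧ l.length ≤ R + 2 * L ∧ ncn T c a l ≤ k) →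
    ∀ (l : List D) (v w : T.Vertex), T.IsWalk l v w →
      |((((l.map ρ).prod).t : ℤ) : ℝ)| ≤ (l.length : ℝ) / 4 + (R : ℝ) / 4

/-- NMR (40 lines, uses nothing). PROOF. 3 ^ 48 ≥ 2 ^ 72 (9 ≥ 8), so N * 2 ^ (72 (m + 1)) ≤ 2 ^ (54 (m + 1)) * A. -/
def Stmt_NMR : Prop :=
  ∀ (m A N : ℕ), N * 3 ^ (48 * (m + 1)) ≤ 2 ^ (6 * (m + 1) + 48 * (m + 1)) * A → N * 2 ^ m ≤ A

/-- PKR (350 lines, uses NMR). Good shifts. Compare `ev/B_PICK.lean`. Cite p_CNT, p_LLS, p_HIGH.
PROOF. If N is empty everything is clear. V = the subtype of N (a Fintype, nonempty); b = 1024,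
h = 2 b = 2048; ord an injection of N to the numbers ≤ n; for an outcome ω : Out V 2048 m let
δ = shift ω (≤ L since 2048 m + 2047 ≤ L), extended by 0. R' = 3 L + 1. For a, b' ∈ N with Near R' a b' fix
a walk l of length ≤ R' from a to b' and let p_i be its vertex at min (i, length), i ≤ R'. Let
Q a = {u ∈ N : Near (R' + L) a u} and g u i = td L u (p_i) for u ∈ Q a, g u i = 2 L + 2 for u ∉ Q a (constant in
i); |g u i - g u j| ≤ |i - j| (TDF). W ω i = the u ∈ V with the greatest (n + 1) (shift ω u - g u i) + ord u
(unique). W ω i ∈ Q a, since a ∈ Q a has at least -(n + 1) (L + 1) and a u ∉ Q a has at most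
(n + 1) (L - 2 L - 2) + n; so W ω i depends only on the coordinates in Q a. P = R' + 1 ≤ 6 (m + 1) * 1024,
B = 6 (m + 1), k = 48 (m + 1). Event E a: some u ∈ Q a has x = 0, or for some b' ∈ N with Near R' a b' at least
k values W ω i, i < P, and no u ∈ Q a has x = 0. It depends only on Q a. Q a meets Q a' only if
Near (8 L + 2) a a': at most M many a'; also Q a and the set of the b' have at most M elements
(2048 (m + 1) = L + 1, so 8 L + 2 ≤ 2 ^ 14 (m + 1)). Counting: E a has at most M N1 + M N2 outcomes,
N1 * 2 ^ m ≤ A (HIGH), N2 * 2 ^ m ≤ A (CNT, NMR), so 6 M * card E a * 2 ^ m ≤ 12 M ^ 2 A ≤ 2 ^ m A. LLS gives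
ω outside all E a. Let c be as in the statement, l the walk fixed for a, b'. If c (p_i) = some u then
u ∈ N, td L u (p_i) ≤ δ u ≤ L, so u ∈ Q a and W ω i = u (for u' ∈ Q a by the property of c; for u' ∉ Q a the
score is negative, that of u is ≥ 0). So ncn c a l ≤ number of the W ω i < k. -/
def Stmt_PKR : Prop :=
  ∀ (D : Type) [Finite D] (T : Triangulation D) (N : Set T.Vertex) (m M L : ℕ),
    L + 1 = 2048 * (m + 1) → 12 * M ^ 2 ≤ 2 ^ m →
    (∀ v ∈ N, Nat.card {w : T.Vertex // w ∈ N ∧ T.Near (2 ^ 14 * (m + 1)) v w} ≤ M) →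
    ∃ (n : ℕ) (δ ord : T.Vertex → ℕ), (∀ u ∈ N, δ u ≤ L) ∧ (∀ u ∈ N, ord u ≤ n) ∧
      Set.InjOn ord N ∧
      ∀ c : T.Vertex → Option T.Vertex,
        (∀ v u, c v = some u → u ∈ N ∧ T.td L u v ≤ δ u ∧
          ∀ u' ∈ N, u' ≠ u → score T L n δ ord u' v < score T L n δ ord u v) →
        ∀ a ∈ N, ∀ b ∈ N, T.Near (3 * L + 1) a b →
          ∃ l, T.IsWalk l a b ∧ l.length ≤ 3 * L + 1 ∧ ncn T c a l ≤ 48 * (m + 1)

end ESub
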